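import Pool.Agent.Y385.SPI.Small

set_option autoImplicit false

/-!
# Colourings with small greatest common divisors

If a finite set `A` of positive integers is coloured with `K` colours in such a way that two
different elements of the same colour have greatest common divisor at most `L`, then the
multiplicative energy of `A` is at most a constant times `(L |A|) ^ ε (|A| ^ 2 + K ^ 2 |A|)`.
-/

namespace Pool.Agent.Y385.SPI

open Finset
open scoped Combinatorics.Additive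

theorem three (L x z₁ z₂ z₃ : ℕ) (hx : L ^ 6 < x)
    (h12 : Nat.gcd z₁ z₂ ≤ L) (h13 : Nat.gcd z₁ z₃ ≤ L) (h23 : Nat.gcd z₂ z₃ ≤ L)
    (hz1 : z₁ ≠ 0) (hz2 : z₂ ≠ 0)
    (h1 : x ≤ Nat.gcd x z₁ ^ 2) (h2 : x ≤ Nat.gcd x z₂ ^ 2) (h3 : x ≤ Nat.gcd x z₃ ^ 2) : False := by
  have hx0 : 0 < x := by omega
  set a := Nat.gcd x z₁ with ha
  set b := Nat.gcd x z₂ with hb
  set c := Nat.gcd x z₃ with hc
  have ha0 : 0 < a := Nat.gcd_pos_of_pos_left _ hx0
  have hb0 : 0 < b := Nat.gcd_pos_of_pos_left _ hx0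
  have hc0 : 0 < c := Nat.gcd_pos_of_pos_left _ hx0
  have g12 : Nat.gcd a b ≤ L := by
    refine le_trans (Nat.le_of_dvd (Nat.gcd_pos_of_pos_left _ (Nat.pos_of_ne_zero hz1)) ?_) h12
    exact Nat.dvd_gcd ((Nat.gcd_dvd_left a b).trans (Nat.gcd_dvd_right x z₁))
      ((Nat.gcd_dvd_right a b).trans (Nat.gcd_dvd_right x z₂))
  have g13 : Nat.gcd c a ≤ L := by
    refine le_trans (Nat.le_of_dvd (Nat.gcd_pos_of_pos_left _ (Nat.pos_of_ne_zero hz1)) ?_) h13
    exact Nat.dvd_gcd ((Nat.gcd_dvd_right c a).trans (Nat.gcd_dvd_right x z₁))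
      ((Nat.gcd_dvd_left c a).trans (Nat.gcd_dvd_right x z₃))
  have g23 : Nat.gcd c b ≤ L := by
    refine le_trans (Nat.le_of_dvd (Nat.gcd_pos_of_pos_left _ (Nat.pos_of_ne_zero hz2)) ?_) h23
    exact Nat.dvd_gcd ((Nat.gcd_dvd_right c b).trans (Nat.gcd_dvd_right x z₂))
      ((Nat.gcd_dvd_left c b).trans (Nat.gcd_dvd_right x z₃))
  have hl : Nat.lcm c (Nat.lcm a b) ≤ x := Nat.le_of_dvd hx0
    (Nat.lcm_dvd (Nat.gcd_dvd_left _ _) (Nat.lcm_dvd (Nat.gcd_dvd_left _ _) (Nat.gcd_dvd_left _ _)))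
  have e1 : a * b = Nat.gcd a b * Nat.lcm a b := (Nat.gcd_mul_lcm a b).symm
  have e2 : c * Nat.lcm a b = Nat.gcd c (Nat.lcm a b) * Nat.lcm c (Nat.lcm a b) :=
    (Nat.gcd_mul_lcm _ _).symm
  have e3 : Nat.gcd c (Nat.lcm a b) ≤ L * L := by
    have d1 : Nat.gcd c (Nat.lcm a b) ∣ Nat.gcd c (a * b) :=
      Nat.dvd_gcd (Nat.gcd_dvd_left _ _) ((Nat.gcd_dvd_right _ _).trans (Nat.lcm_dvd_mul a b))
    have d2 : Nat.gcd c (a * b) ∣ Nat.gcd c a * Nat.gcd c b := Nat.gcd_mul_right_dvd_mul_gcd c a b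
    have hpos : 0 < Nat.gcd c a * Nat.gcd c b :=
      Nat.mul_pos (Nat.gcd_pos_of_pos_left _ hc0) (Nat.gcd_pos_of_pos_left _ hc0)
    exact (Nat.le_of_dvd hpos (d1.trans d2)).trans (Nat.mul_le_mul g13 g23)
  have h4 : a * b * c ≤ L ^ 3 * x := by
    calc a * b * c = Nat.gcd a b * (c * Nat.lcm a b) := by rw [e1]; ring
      _ = Nat.gcd a b * (Nat.gcd c (Nat.lcm a b) * Nat.lcm c (Nat.lcm a b)) := by rw [e2]
      _ ≤ L * ((L * L) * x) := Nat.mul_le_mul g12 (Nat.mul_le_mul e3 hl)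
      _ = L ^ 3 * x := by ring
  have h5 : x * x * x ≤ L ^ 6 * (x * x) := by
    calc x * x * x ≤ a ^ 2 * b ^ 2 * c ^ 2 := Nat.mul_le_mul (Nat.mul_le_mul h1 h2) h3
      _ = (a * b * c) ^ 2 := by ring
      _ ≤ (L ^ 3 * x) ^ 2 := Nat.pow_le_pow_left h4 2
      _ = L ^ 6 * (x * x) := by ring
  have h6 : L ^ 6 * (x * x) < x * (x * x) := Nat.mul_lt_mul_of_pos_right hx (Nat.mul_pos hx0 hx0)
  have h7 : x * x * x = x * (x * x) := by ring
  omega

variable {κ : Type} [DecidableEq κ]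

/-- Two different elements of `A` of the same colour have greatest common divisor at most `L`. -/
def GcdColouring (A : Finset ℕ) (L : ℕ) (c : ℕ → κ) : Prop :=
  ∀ x ∈ A, ∀ y ∈ A, x ≠ y → c x = c y → Nat.gcd x y ≤ L

theorem card_Z (A : Finset ℕ) (hA : ∀ x ∈ A, x ≠ 0) (L : ℕ) (c : ℕ → κ) (hc : GcdColouring A L c)
    (x : ℕ) (hx : L ^ 6 < x) :
    (A.filter fun z => x ≤ Nat.gcd x z ^ 2).card ≤ 2 * (A.image c).card := by
  refine (Finset.card_le_mul_card_image (f := c) _ 2 ?_).trans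
    (Nat.mul_le_mul_left 2 (Finset.card_le_card (Finset.image_subset_image (Finset.filter_subset _ _))))
  intro k _
  by_contra hcon
  push Not at hcon
  obtain ⟨z₁, h1, z₂, h2, z₃, h3, h12, h13, h23⟩ := Finset.two_lt_card.1 hcon
  rw [Finset.mem_filter, Finset.mem_filter] at h1 h2 h3
  exact three L x z₁ z₂ z₃ hx
    (hc z₁ h1.1.1 z₂ h2.1.1 h12 (h1.2.trans h2.2.symm))
    (hc z₁ h1.1.1 z₃ h3.1.1 h13 (h1.2.trans h3.2.symm))
    (hc z₂ h2.1.1 z₃ h3.1.1 h23 (h2.2.trans h3.2.symm))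
    (hA z₁ h1.1.1) (hA z₂ h2.1.1) h1.1.2 h2.1.2 h3.1.2

theorem card_W (A : Finset ℕ) (hA : ∀ x ∈ A, x ≠ 0) (L : ℕ) (c : ℕ → κ) (hc : GcdColouring A L c)
    (b : ℕ) (hb : L < b) : (A.filter fun w => b ∣ w).card ≤ (A.image c).card := by
  have h := Finset.card_le_mul_card_image (f := c) (A.filter fun w => b ∣ w) 1 ?_
  · rw [one_mul] at h
    exact h.trans (Finset.card_le_card (Finset.image_subset_image (Finset.filter_subset _ _)))
  intro k _
  rw [Finset.card_le_one]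
  intro w₁ h1 w₂ h2
  rw [Finset.mem_filter, Finset.mem_filter] at h1 h2
  by_contra hne
  have h3 := hc w₁ h1.1.1 w₂ h2.1.1 hne (h1.2.trans h2.2.symm)
  have h4 : b ≤ Nat.gcd w₁ w₂ := Nat.le_of_dvd
    (Nat.gcd_pos_of_pos_left _ (Nat.pos_of_ne_zero (hA _ h1.1.1))) (Nat.dvd_gcd h1.1.2 h2.1.2)
  omega

/-- the solutions of `x y = z w` in `A`, written as `((x, z), (y, w))` -/
def sols (A : Finset ℕ) : Finset ((ℕ × ℕ) × (ℕ × ℕ)) :=
  ((A ×ˢ A) ×ˢ (A ×ˢ A)).filter fun q => q.1.1 * q.2.1 = q.1.2 * q.2.2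

theorem mem_sols (A : Finset ℕ) (x z y w : ℕ) :
    ((x, z), (y, w)) ∈ sols A ↔ (x ∈ A ∧ z ∈ A) ∧ (y ∈ A ∧ w ∈ A) ∧ x * y = z * w := by
  unfold sols
  rw [Finset.mem_filter, Finset.mem_product, Finset.mem_product, Finset.mem_product]
  tauto

theorem card_big (A : Finset ℕ) (hA : ∀ x ∈ A, x ≠ 0) (L : ℕ) (hL : 1 ≤ L) (c : ℕ → κ)
    (hc : GcdColouring A L c) :
    ((sols A).filter fun q => L ^ 6 * Nat.gcd q.1.1 q.1.2 < q.1.1 ∧
      q.1.1 ≤ Nat.gcd q.1.1 q.1.2 ^ 2).card ≤ 2 * (A.image c).card ^ 2 * A.card := by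
  classical
  set K := (A.image c).card with hK
  set T : Finset (Σ _ : ℕ, Σ _ : ℕ, ℕ) := A.sigma fun x =>
    (A.filter fun z => L ^ 6 * Nat.gcd x z < x ∧ x ≤ Nat.gcd x z ^ 2).sigma fun z =>
      A.filter fun w => x / Nat.gcd x z ∣ w with hT
  have hinj : ((sols A).filter fun q => L ^ 6 * Nat.gcd q.1.1 q.1.2 < q.1.1 ∧
      q.1.1 ≤ Nat.gcd q.1.1 q.1.2 ^ 2).card ≤ T.card := by
    refine Finset.card_le_card_of_injOn (fun q => ⟨q.1.1, ⟨q.1.2, q.2.2⟩⟩) ?_ ?_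
    · rintro ⟨⟨x, z⟩, ⟨y, w⟩⟩ hq
      rw [Finset.mem_coe, Finset.mem_filter, mem_sols] at hq
      obtain ⟨⟨⟨hx, hz⟩, ⟨hy, hw⟩, heq⟩, h1, h2⟩ := hq
      rw [Finset.mem_coe, hT, Finset.mem_sigma]
      refine ⟨hx, ?_⟩
      rw [Finset.mem_sigma]
      refine ⟨Finset.mem_filter.2 ⟨hz, h1, h2⟩, Finset.mem_filter.2 ⟨hw, ?_⟩⟩
      have hg0 : 0 < Nat.gcd x z := Nat.gcd_pos_of_pos_left _ (Nat.pos_of_ne_zero (hA x hx))
      have hcop := Nat.coprime_div_gcd_div_gcd hg0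
      refine hcop.dvd_of_dvd_mul_left ⟨y, ?_⟩
      have e1 : Nat.gcd x z * (x / Nat.gcd x z) = x := Nat.mul_div_cancel' (Nat.gcd_dvd_left x z)
      have e2 : Nat.gcd x z * (z / Nat.gcd x z) = z := Nat.mul_div_cancel' (Nat.gcd_dvd_right x z)
      refine Nat.eq_of_mul_eq_mul_left hg0 ?_
      calc Nat.gcd x z * (z / Nat.gcd x z * w) = (Nat.gcd x z * (z / Nat.gcd x z)) * w := by ring
        _ = z * w := by rw [e2]
        _ = x * y := heq.symm
        _ = (Nat.gcd x z * (x / Nat.gcd x z)) * y := by rw [e1]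
        _ = _ := by ring
    · rintro ⟨⟨x, z⟩, ⟨y, w⟩⟩ hq ⟨⟨x', z'⟩, ⟨y', w'⟩⟩ hq' h
      rw [Finset.mem_coe, Finset.mem_filter, mem_sols] at hq hq'
      simp only [Sigma.mk.injEq, heq_eq_eq] at h
      obtain ⟨rfl, rfl, rfl⟩ := h
      have h1 := hq.1.2.2
      have h2 := hq'.1.2.2
      have hx0 : 0 < x := Nat.pos_of_ne_zero (hA x hq.1.1.1)
      have : y = y' := Nat.eq_of_mul_eq_mul_left hx0 (h1.trans h2.symm)
      rw [this]
  refine hinj.trans ?_
  rw [hT, Finset.card_sigma]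
  have hb : ∀ x ∈ A, ((A.filter fun z => L ^ 6 * Nat.gcd x z < x ∧ x ≤ Nat.gcd x z ^ 2).sigma fun z =>
      A.filter fun w => x / Nat.gcd x z ∣ w).card ≤ 2 * K ^ 2 := by
    intro x hx
    rw [Finset.card_sigma]
    have hL6 : 1 ≤ L ^ 6 := Nat.one_le_pow _ _ hL
    by_cases hx6 : L ^ 6 < x
    · calc ∑ z ∈ A.filter (fun z => L ^ 6 * Nat.gcd x z < x ∧ x ≤ Nat.gcd x z ^ 2),
            (A.filter fun w => x / Nat.gcd x z ∣ w).card
          ≤ ∑ _z ∈ A.filter (fun z => L ^ 6 * Nat.gcd x z < x ∧ x ≤ Nat.gcd x z ^ 2), K := by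
            refine Finset.sum_le_sum fun z hz => ?_
            rw [Finset.mem_filter] at hz
            have hg0 : 0 < Nat.gcd x z := Nat.gcd_pos_of_pos_left _ (by omega)
            refine card_W A hA L c hc _ ?_
            have h1 : L ^ 6 < x / Nat.gcd x z := by
              rw [Nat.lt_div_iff_mul_lt_of_dvd hg0.ne' (Nat.gcd_dvd_left x z)]
              linarith [hz.2.1]
            exact lt_of_le_of_lt (Nat.le_self_pow (by norm_num) L) h1
        _ = (A.filter fun z => L ^ 6 * Nat.gcd x z < x ∧ x ≤ Nat.gcd x z ^ 2).card * K := by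
            rw [Finset.sum_const, smul_eq_mul]
        _ ≤ (2 * K) * K := by
            refine Nat.mul_le_mul_right K ?_
            refine (Finset.card_le_card ?_).trans (card_Z A hA L c hc x hx6)
            intro z hz
            rw [Finset.mem_filter] at hz ⊢
            exact ⟨hz.1, hz.2.2⟩
        _ = _ := by ring
    · have : A.filter (fun z => L ^ 6 * Nat.gcd x z < x ∧ x ≤ Nat.gcd x z ^ 2) = ∅ := by
        refine Finset.filter_eq_empty_iff.2 fun z _ h => ?_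
        have hg0 : 0 < Nat.gcd x z := Nat.gcd_pos_of_pos_left _ (by have := hA x hx; omega)
        have : L ^ 6 ≤ L ^ 6 * Nat.gcd x z := Nat.le_mul_of_pos_right _ hg0
        omega
      rw [this]
      simp
  calc ∑ x ∈ A, _ ≤ ∑ _x ∈ A, 2 * K ^ 2 := Finset.sum_le_sum hb
    _ = 2 * K ^ 2 * A.card := by rw [Finset.sum_const, smul_eq_mul]; ring

/-- the solutions in which `x` is the largest of the four numbers and `gcd (x, z) ≥ √x` -/
def lead (A : Finset ℕ) : Finset ((ℕ × ℕ) × (ℕ × ℕ)) :=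
  (sols A).filter fun q => q.1.2 ≤ q.1.1 ∧ q.1.1 ≤ Nat.gcd q.1.1 q.1.2 ^ 2

theorem eight (A : Finset ℕ) (hA : ∀ x ∈ A, x ≠ 0) : (sols A).card ≤ 8 * (lead A).card := by
  classical
  -- eight maps
  let F : Fin 8 → ((ℕ × ℕ) × (ℕ × ℕ)) → ((ℕ × ℕ) × (ℕ × ℕ)) := fun i q =>
    ![((q.1.1, q.1.2), (q.2.1, q.2.2)), ((q.1.1, q.2.2), (q.2.1, q.1.2)),
      ((q.2.1, q.1.2), (q.1.1, q.2.2)), ((q.2.1, q.2.2), (q.1.1, q.1.2)),
      ((q.1.2, q.1.1), (q.2.2, q.2.1)), ((q.1.2, q.2.1), (q.2.2, q.1.1)),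
      ((q.2.2, q.1.1), (q.1.2, q.2.1)), ((q.2.2, q.2.1), (q.1.2, q.1.1))] i
  have hFinj : ∀ i, Function.Injective (F i) := by
    intro i
    rintro ⟨⟨x, z⟩, ⟨y, w⟩⟩ ⟨⟨x', z'⟩, ⟨y', w'⟩⟩ h
    fin_cases i <;> simp [F] at h ⊢ <;> tauto
  have hcov : sols A ⊆ (Finset.univ : Finset (Fin 8)).biUnion fun i =>
      (sols A).filter fun q => F i q ∈ lead A := by
    rintro ⟨⟨x, z⟩, ⟨y, w⟩⟩ hq
    have hq' := (mem_sols A x z y w).1 hq
    obtain ⟨⟨hx, hz⟩, ⟨hy, hw⟩, heq⟩ := hq'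
    have key : ∀ a b c d : ℕ, a ∈ A → b ∈ A → c ∈ A → d ∈ A → a * b = c * d → c ≤ a → d ≤ a →
        ((a, c), (b, d)) ∈ lead A ∨ ((a, d), (b, c)) ∈ lead A := by
      intro a b c d ha hb hc hd h hca hda
      have hg0 : 0 < Nat.gcd a c := Nat.gcd_pos_of_pos_left _ (Nat.pos_of_ne_zero (hA a ha))
      have hcop := Nat.coprime_div_gcd_div_gcd hg0
      have e1 : Nat.gcd a c * (a / Nat.gcd a c) = a := Nat.mul_div_cancel' (Nat.gcd_dvd_left a c)
      have e2 : Nat.gcd a c * (c / Nat.gcd a c) = c := Nat.mul_div_cancel' (Nat.gcd_dvd_right a c)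
      have hd1 : a / Nat.gcd a c ∣ d := by
        refine hcop.dvd_of_dvd_mul_left ⟨b, ?_⟩
        refine Nat.eq_of_mul_eq_mul_left hg0 ?_
        calc Nat.gcd a c * (c / Nat.gcd a c * d) = (Nat.gcd a c * (c / Nat.gcd a c)) * d := by ring
          _ = c * d := by rw [e2]
          _ = a * b := h.symm
          _ = (Nat.gcd a c * (a / Nat.gcd a c)) * b := by rw [e1]
          _ = _ := by ring
      have hd2 : a / Nat.gcd a c ∣ a := Nat.div_dvd_of_dvd (Nat.gcd_dvd_left a c)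
      have hd3 : a / Nat.gcd a c ≤ Nat.gcd a d := Nat.le_of_dvd
        (Nat.gcd_pos_of_pos_left _ (Nat.pos_of_ne_zero (hA a ha))) (Nat.dvd_gcd hd2 hd1)
      have h5 : a ≤ Nat.gcd a c * Nat.gcd a d := by
        calc a = Nat.gcd a c * (a / Nat.gcd a c) := e1.symm
          _ ≤ _ := Nat.mul_le_mul_left _ hd3
      unfold lead
      rcases le_total (Nat.gcd a c) (Nat.gcd a d) with h6 | h6
      · right
        rw [Finset.mem_filter, mem_sols]
        refine ⟨⟨⟨ha, hd⟩, ⟨hb, hc⟩, by rw [h, mul_comm]⟩, hda, ?_⟩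
        simp only
        nlinarith
      · left
        rw [Finset.mem_filter, mem_sols]
        refine ⟨⟨⟨ha, hc⟩, ⟨hb, hd⟩, h⟩, hca, ?_⟩
        simp only
        nlinarith
    have hmax : (z ≤ x ∧ w ≤ x) ∨ (z ≤ y ∧ w ≤ y) ∨ (x ≤ z ∧ y ≤ z) ∨ (x ≤ w ∧ y ≤ w) := by
      rcases le_total x y with h1 | h1 <;> rcases le_total z w with h2 | h2
      · rcases le_total y w with h3 | h3
        · right; right; right; exact ⟨by omega, by omega⟩
        · right; left; exact ⟨by omega, by omega⟩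
      · rcases le_total y z with h3 | h3
        · right; right; left; exact ⟨by omega, by omega⟩
        · right; left; exact ⟨by omega, by omega⟩
      · rcases le_total x w with h3 | h3
        · right; right; right; exact ⟨by omega, by omega⟩
        · left; exact ⟨by omega, by omega⟩
      · rcases le_total x z with h3 | h3
        · right; right; left; exact ⟨by omega, by omega⟩
        · left; exact ⟨by omega, by omega⟩
    rw [Finset.mem_biUnion]
    rcases hmax with h | h | h | h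
    · rcases key x y z w hx hy hz hw heq h.1 h.2 with k | k
      · exact ⟨0, Finset.mem_univ _, Finset.mem_filter.2 ⟨hq, by simpa [F] using k⟩⟩
      · exact ⟨1, Finset.mem_univ _, Finset.mem_filter.2 ⟨hq, by simpa [F] using k⟩⟩
    · rcases key y x z w hy hx hz hw (by rw [mul_comm]; exact heq) h.1 h.2 with k | k
      · exact ⟨2, Finset.mem_univ _, Finset.mem_filter.2 ⟨hq, by simpa [F] using k⟩⟩
      · exact ⟨3, Finset.mem_univ _, Finset.mem_filter.2 ⟨hq, by simpa [F] using k⟩⟩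
    · rcases key z w x y hz hw hx hy heq.symm h.1 h.2 with k | k
      · exact ⟨4, Finset.mem_univ _, Finset.mem_filter.2 ⟨hq, by simpa [F] using k⟩⟩
      · exact ⟨5, Finset.mem_univ _, Finset.mem_filter.2 ⟨hq, by simpa [F] using k⟩⟩
    · rcases key w z x y hw hz hx hy (by rw [mul_comm]; exact heq.symm) h.1 h.2 with k | k
      · exact ⟨6, Finset.mem_univ _, Finset.mem_filter.2 ⟨hq, by simpa [F] using k⟩⟩
      · exact ⟨7, Finset.mem_univ _, Finset.mem_filter.2 ⟨hq, by simpa [F] using k⟩⟩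
  calc (sols A).card ≤ _ := Finset.card_le_card hcov
    _ ≤ ∑ i : Fin 8, ((sols A).filter fun q => F i q ∈ lead A).card := Finset.card_biUnion_le
    _ ≤ ∑ _i : Fin 8, (lead A).card := by
        refine Finset.sum_le_sum fun i _ => ?_
        refine Finset.card_le_card_of_injOn (F i) ?_ ((hFinj i).injOn)
        intro q hq
        exact (Finset.mem_filter.1 (Finset.mem_coe.1 hq)).2
    _ = 8 * (lead A).card := by simp

theorem lead_card (A : Finset ℕ) (hA : ∀ x ∈ A, x ≠ 0) (L : ℕ) (hL : 1 ≤ L) (c : ℕ → κ)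
    (hc : GcdColouring A L c) :
    (lead A).card ≤ (small A (L ^ 6)).card + 2 * (A.image c).card ^ 2 * A.card := by
  classical
  have hsub : lead A ⊆ small A (L ^ 6) ∪ (sols A).filter fun q => L ^ 6 * Nat.gcd q.1.1 q.1.2 < q.1.1 ∧
      q.1.1 ≤ Nat.gcd q.1.1 q.1.2 ^ 2 := by
    intro q hq
    unfold lead at hq
    rw [Finset.mem_filter] at hq
    rw [Finset.mem_union]
    by_cases h : q.1.1 ≤ L ^ 6 * Nat.gcd q.1.1 q.1.2
    · left
      unfold small
      have := (Finset.mem_filter.1 hq.1)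
      rw [Finset.mem_filter]
      exact ⟨this.1, this.2, max_le h (hq.2.1.trans h)⟩
    · right
      rw [Finset.mem_filter]
      exact ⟨hq.1, by omega, hq.2.2⟩
  exact (Finset.card_le_card hsub).trans ((Finset.card_union_le _ _).trans
    (Nat.add_le_add_left (card_big A hA L hL c hc) _))

/-- **The energy bound for coloured sets.** -/
theorem colour_bound (ε : ℝ) (hε : 0 < ε) : ∃ C : ℝ, 0 < C ∧ ∀ (κ : Type) (_ : DecidableEq κ)
    (A : Finset ℕ) (L : ℕ) (c : ℕ → κ), 1 ≤ L → (∀ x ∈ A, x ≠ 0) → GcdColouring A L c →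
    ((Eₘ[A] : ℕ) : ℝ) ≤ C * ((L : ℝ) * A.card) ^ ε *
      ((A.card : ℝ) ^ 2 + ((A.image c).card : ℝ) ^ 2 * A.card) := by
  obtain ⟨K, hK, hs⟩ := small_bound (ε / 6) (by positivity)
  refine ⟨8 * K + 16, by positivity, ?_⟩
  intro κ _ A L c hL hA hc
  rcases A.eq_empty_or_nonempty with rfl | hne
  · simp
  have hE : Eₘ[A] = (sols A).card := rfl
  have hL1 : (1 : ℝ) ≤ L := by exact_mod_cast hL
  have hA1 : (1 : ℝ) ≤ A.card := by exact_mod_cast hne.card_pos
  have h1 : ((Eₘ[A] : ℕ) : ℝ) ≤ 8 * (((small A (L ^ 6)).card : ℝ) +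
      2 * ((A.image c).card : ℝ) ^ 2 * A.card) := by
    rw [hE]
    have := (eight A hA).trans (Nat.mul_le_mul_left 8 (lead_card A hA L hL c hc))
    exact_mod_cast this
  have h2 := hs (L ^ 6) (Nat.one_le_pow _ _ hL) A hA
  have h3 : (((L ^ 6 : ℕ) : ℝ) * A.card) ^ (ε / 6) ≤ ((L : ℝ) * A.card) ^ ε := by
    have e1 : ((L : ℝ) * A.card) ^ ε = (((L : ℝ) * A.card) ^ (6 : ℕ)) ^ (ε / 6) := by
      rw [← Real.rpow_natCast, ← Real.rpow_mul (by positivity)]
      congr 1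
      push_cast
      ring
    rw [e1]
    refine Real.rpow_le_rpow (by positivity) ?_ (by positivity)
    push_cast
    rw [mul_pow]
    refine mul_le_mul_of_nonneg_left ?_ (by positivity)
    exact le_self_pow₀ hA1 (by norm_num)
  have h4 : (1 : ℝ) ≤ ((L : ℝ) * A.card) ^ ε :=
    Real.one_le_rpow (by nlinarith) hε.le
  set T : ℝ := ((L : ℝ) * A.card) ^ ε with hT
  set k2 : ℝ := ((A.image c).card : ℝ) ^ 2 * A.card with hk2
  have hk20 : 0 ≤ k2 := by positivity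
  have h5 : ((small A (L ^ 6)).card : ℝ) ≤ K * T * (A.card : ℝ) ^ 2 := by
    refine h2.trans ?_
    exact mul_le_mul_of_nonneg_right (mul_le_mul_of_nonneg_left h3 hK.le) (by positivity)
  have h6 : k2 ≤ T * k2 := le_mul_of_one_le_left hk20 h4
  have h7 : 0 ≤ T * (A.card : ℝ) ^ 2 := by positivity
  have h8 : 0 ≤ T * k2 := by positivity
  calc ((Eₘ[A] : ℕ) : ℝ) ≤ 8 * (((small A (L ^ 6)).card : ℝ) + 2 * k2) := by
        refine h1.trans (le_of_eq ?_)
        rw [hk2]; ring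
    _ ≤ 8 * (K * T * (A.card : ℝ) ^ 2 + 2 * (T * k2)) := by linarith
    _ ≤ (8 * K + 16) * T * ((A.card : ℝ) ^ 2 + k2) := by nlinarith

end Pool.Agent.Y385.SPI
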