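import Pool.Agent.Y385.SPI.Colour

set_option autoImplicit false

/-!
# Sets covered by few short intervals
-/

namespace Pool.Agent.Y385.SPI

open Finset
open scoped Combinatorics.Additive Pointwise

/-- The passage from a set of positive integers to the product set. -/
theorem nat_step (ε : ℝ) (hε : 0 < ε) (D : ℕ) : ∃ c : ℝ, 0 < c ∧ ∀ (B : Finset ℕ) (κ : Type)
    (_ : DecidableEq κ) (col : ℕ → κ) (n K : ℕ), 1 ≤ n → 1 ≤ K → (∀ x ∈ B, x ≠ 0) →
    GcdColouring B (n ^ D) col → (B.image col).card ≤ K → B.card ≤ n → n ≤ 3 * B.card →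
    c * (n : ℝ) ^ (-ε) * min ((n : ℝ) ^ 2) ((n : ℝ) ^ 3 / (K : ℝ) ^ 2) ≤ ((B * B).card : ℝ) := by
  obtain ⟨C, hC, h⟩ := colour_bound (ε / (D + 1)) (by positivity)
  refine ⟨1 / (54 * C), by positivity, ?_⟩
  intro B κ _ col n K hn hK hB0 hcol hKB hBn hnB
  have hn1 : (1 : ℝ) ≤ n := by exact_mod_cast hn
  have hK1 : (1 : ℝ) ≤ K := by exact_mod_cast hK
  have hn0 : (0 : ℝ) < n := by linarith
  have hBpos : 0 < B.card := by omega
  have hb : (0 : ℝ) < B.card := by exact_mod_cast hBpos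
  have hb3 : (n : ℝ) ≤ 3 * B.card := by exact_mod_cast hnB
  have hbn : (B.card : ℝ) ≤ n := by exact_mod_cast hBn
  have hE := h κ inferInstance B (n ^ D) col (Nat.one_le_pow _ _ hn) hB0 hcol
  have hcs : ((B.card : ℝ) ^ 2 * (B.card : ℝ) ^ 2) ≤ ((B * B).card : ℝ) * ((Eₘ[B] : ℕ) : ℝ) := by
    exact_mod_cast Finset.le_card_mul_mul_mulEnergy B B
  have hL : (((n ^ D : ℕ) : ℝ) * B.card) ^ (ε / (D + 1)) ≤ (n : ℝ) ^ ε := by
    have e1 : (n : ℝ) ^ ε = ((n : ℝ) ^ (D + 1)) ^ (ε / (D + 1)) := by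
      rw [← Real.rpow_natCast, ← Real.rpow_mul hn0.le]
      congr 1
      push_cast
      field_simp
    rw [e1]
    refine Real.rpow_le_rpow (by positivity) ?_ (by positivity)
    push_cast
    rw [pow_succ]
    exact mul_le_mul_of_nonneg_left hbn (by positivity)
  have hKB' : ((B.image col).card : ℝ) ^ 2 ≤ (K : ℝ) ^ 2 :=
    pow_le_pow_left₀ (by positivity) (by exact_mod_cast hKB) 2
  have hE2 : ((Eₘ[B] : ℕ) : ℝ) ≤ C * (n : ℝ) ^ ε * ((B.card : ℝ) * ((B.card : ℝ) + (K : ℝ) ^ 2)) := by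
    refine hE.trans ?_
    refine mul_le_mul (mul_le_mul_of_nonneg_left hL hC.le) ?_ (by positivity) (by positivity)
    nlinarith
  have hnε : 0 < (n : ℝ) ^ ε := Real.rpow_pos_of_pos hn0 _
  have hmain : (B.card : ℝ) ^ 3 ≤ ((B * B).card : ℝ) * (C * (n : ℝ) ^ ε * ((B.card : ℝ) + (K : ℝ) ^ 2)) := by
    have h1 : (B.card : ℝ) ^ 3 * B.card ≤
        (((B * B).card : ℝ) * (C * (n : ℝ) ^ ε * ((B.card : ℝ) + (K : ℝ) ^ 2))) * B.card := by
      calc (B.card : ℝ) ^ 3 * B.card = (B.card : ℝ) ^ 2 * (B.card : ℝ) ^ 2 := by ring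
        _ ≤ ((B * B).card : ℝ) * ((Eₘ[B] : ℕ) : ℝ) := hcs
        _ ≤ ((B * B).card : ℝ) * (C * (n : ℝ) ^ ε * ((B.card : ℝ) * ((B.card : ℝ) + (K : ℝ) ^ 2))) :=
            mul_le_mul_of_nonneg_left hE2 (by positivity)
        _ = _ := by ring
    exact le_of_mul_le_mul_right h1 hb
  -- comparison with n
  set P : ℝ := ((B * B).card : ℝ) with hP
  have hP0 : 0 ≤ P := by positivity
  set W : ℝ := C * (n : ℝ) ^ ε with hW
  have hW0 : 0 < W := by positivity
  set M : ℝ := min ((n : ℝ) ^ 2) ((n : ℝ) ^ 3 / (K : ℝ) ^ 2) with hM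
  have hK20 : (0 : ℝ) < (K : ℝ) ^ 2 := by positivity
  have hM1 : M ≤ (n : ℝ) ^ 2 := min_le_left _ _
  have hM2 : M * (K : ℝ) ^ 2 ≤ (n : ℝ) ^ 3 := by
    have : M ≤ (n : ℝ) ^ 3 / (K : ℝ) ^ 2 := min_le_right _ _
    rwa [le_div_iff₀ hK20] at this
  have hM0 : 0 ≤ M := le_min (by positivity) (by positivity)
  -- M * (b + K²) ≤ 2 n³ ≤ 54 b³
  have h1 : M * ((B.card : ℝ) + (K : ℝ) ^ 2) ≤ 2 * (n : ℝ) ^ 3 := by
    have : M * B.card ≤ (n : ℝ) ^ 2 * n := mul_le_mul hM1 hbn hb.le (by positivity)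
    nlinarith
  have h2 : (n : ℝ) ^ 3 ≤ 27 * (B.card : ℝ) ^ 3 := by
    calc (n : ℝ) ^ 3 ≤ (3 * (B.card : ℝ)) ^ 3 := pow_le_pow_left₀ hn0.le hb3 3
      _ = _ := by ring
  have h3 : M * ((B.card : ℝ) + (K : ℝ) ^ 2) ≤ 54 * (P * (W * ((B.card : ℝ) + (K : ℝ) ^ 2))) := by
    linarith
  have hs : 0 < (B.card : ℝ) + (K : ℝ) ^ 2 := by positivity
  have h4 : M ≤ 54 * P * W := by
    have : M * ((B.card : ℝ) + (K : ℝ) ^ 2) ≤ (54 * P * W) * ((B.card : ℝ) + (K : ℝ) ^ 2) := by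
      linarith [h3]
    exact le_of_mul_le_mul_right this hs
  rw [Real.rpow_neg hn0.le]
  have h5 : 1 / (54 * C) * ((n : ℝ) ^ ε)⁻¹ * M = M / (54 * W) := by
    rw [hW]
    field_simp
  rw [h5, div_le_iff₀ (by positivity)]
  linarith

theorem cover (ε : ℝ) (hε : 0 < ε) (D : ℕ) : ∃ c : ℝ, 0 < c ∧ ∀ A T : Finset ℤ, A.Nonempty →
    (∀ a ∈ A, ∃ t ∈ T, t ≤ a ∧ a ≤ t + (A.card : ℤ) ^ D) →
    c * (A.card : ℝ) ^ (-ε) * min ((A.card : ℝ) ^ 2) ((A.card : ℝ) ^ 3 / (T.card : ℝ) ^ 2) ≤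
      ((A * A).card : ℝ) := by
  classical
  obtain ⟨c, hc, h⟩ := nat_step ε hε D
  refine ⟨min c (1 / 16), by positivity, ?_⟩
  intro A T hA hcov
  set n := A.card with hn
  have hn1 : 1 ≤ n := hA.card_pos
  have hn1' : (1 : ℝ) ≤ n := by exact_mod_cast hn1
  have hT1 : 1 ≤ T.card := by
    obtain ⟨a, ha⟩ := hA
    obtain ⟨t, ht, _⟩ := hcov a ha
    exact Finset.card_pos.2 ⟨t, ht⟩
  set M : ℝ := min ((n : ℝ) ^ 2) ((n : ℝ) ^ 3 / (T.card : ℝ) ^ 2) with hM
  have hM0 : 0 ≤ M := le_min (by positivity) (by positivity)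
  have hnε : 0 ≤ (n : ℝ) ^ (-ε) := Real.rpow_nonneg (by positivity) _
  have hAA : 1 ≤ (A * A).card := Finset.card_pos.2 (hA.mul hA)
  by_cases hsmall : n ≤ 2
  · have h1 : M ≤ 4 := by
      refine (min_le_left _ _).trans ?_
      have : (n : ℝ) ≤ 2 := by exact_mod_cast hsmall
      nlinarith
    have h2 : (n : ℝ) ^ (-ε) ≤ 1 := Real.rpow_le_one_of_one_le_of_nonpos hn1' (by linarith)
    have h3 : (1 : ℝ) ≤ ((A * A).card : ℝ) := by exact_mod_cast hAA
    have hmin : min c (1 / 16) ≤ 1 / 16 := min_le_right _ _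
    have hmin0 : 0 < min c (1 / 16) := by positivity
    calc min c (1 / 16) * (n : ℝ) ^ (-ε) * M ≤ (1 / 16) * 1 * 4 := by
          refine mul_le_mul (mul_le_mul hmin h2 hnε (by norm_num)) h1 hM0 (by norm_num)
      _ ≤ _ := by linarith
  -- one of the two signs
  have hsgn : ∃ s : ℤ, (s = 1 ∨ s = -1) ∧ n ≤ 3 * (A.filter fun a => 0 < s * a).card := by
    by_contra hcon
    push Not at hcon
    have h1 := hcon 1 (Or.inl rfl)
    have h2 := hcon (-1) (Or.inr rfl)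
    have h3 : A ⊆ insert 0 ((A.filter fun a => 0 < 1 * a) ∪ (A.filter fun a => 0 < -1 * a)) := by
      intro a ha
      rcases lt_trichotomy a 0 with h | h | h
      · exact Finset.mem_insert_of_mem (Finset.mem_union_right _
          (Finset.mem_filter.2 ⟨ha, by omega⟩))
      · rw [h]; exact Finset.mem_insert_self _ _
      · exact Finset.mem_insert_of_mem (Finset.mem_union_left _
          (Finset.mem_filter.2 ⟨ha, by omega⟩))
    have h4 := (Finset.card_le_card h3).trans ((Finset.card_insert_le _ _).trans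
      (Nat.add_le_add_right (Finset.card_union_le _ _) 1))
    omega
  obtain ⟨s, hs, hsn⟩ := hsgn
  set A' := A.filter fun a => 0 < s * a with hA'
  set B := A'.image Int.natAbs with hB
  have hss : s * s = 1 := by rcases hs with rfl | rfl <;> norm_num
  have hback : ∀ a ∈ A', a = s * (Int.natAbs a : ℤ) := by
    intro a ha
    have h1 := (Finset.mem_filter.1 ha).2
    rcases hs with rfl | rfl
    · have : 0 < a := by linarith
      omega
    · have : a < 0 := by linarith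
      omega
  have hinj : Set.InjOn Int.natAbs (A' : Set ℤ) := by
    intro a ha b hb hab
    rw [hback a ha, hback b hb, hab]
  have hBc : B.card = A'.card := Finset.card_image_of_injOn hinj
  have hBmem : ∀ x ∈ B, x ≠ 0 ∧ s * (x : ℤ) ∈ A := by
    intro x hx
    obtain ⟨a, ha, rfl⟩ := Finset.mem_image.1 hx
    have h1 := (Finset.mem_filter.1 ha)
    refine ⟨?_, ?_⟩
    · intro h0
      have : a = 0 := by omega
      rw [this] at h1
      simp at h1
    · rw [← hback a ha]; exact h1.1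
  have hcovB : ∀ x ∈ B, ∃ t ∈ T, t ≤ s * (x : ℤ) ∧ s * (x : ℤ) ≤ t + (n : ℤ) ^ D := fun x hx =>
    hcov _ (hBmem x hx).2
  set col : ℕ → ℤ := fun x => if hx : ∃ t ∈ T, t ≤ s * (x : ℤ) ∧ s * (x : ℤ) ≤ t + (n : ℤ) ^ D
    then hx.choose else 0 with hcol
  have hcolB : ∀ x ∈ B, col x ∈ T ∧ col x ≤ s * (x : ℤ) ∧ s * (x : ℤ) ≤ col x + (n : ℤ) ^ D := by
    intro x hx
    have h1 := hcovB x hx
    have h2 : col x = h1.choose := by rw [hcol]; simp only; rw [dif_pos h1]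
    rw [h2]
    exact ⟨h1.choose_spec.1, h1.choose_spec.2.1, h1.choose_spec.2.2⟩
  have hgc : GcdColouring B (n ^ D) col := by
    intro x hx y hy hxy hc2
    have h1 := hcolB x hx
    have h2 := hcolB y hy
    rw [hc2] at h1
    have hd : ((Nat.gcd x y : ℕ) : ℤ) ∣ s * x - s * y := by
      have d1 : ((Nat.gcd x y : ℕ) : ℤ) ∣ (x : ℤ) := Int.natCast_dvd_natCast.2 (Nat.gcd_dvd_left x y)
      have d2 : ((Nat.gcd x y : ℕ) : ℤ) ∣ (y : ℤ) := Int.natCast_dvd_natCast.2 (Nat.gcd_dvd_right x y)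
      exact dvd_sub (d1.mul_left s) (d2.mul_left s)
    have hne : s * (x : ℤ) - s * y ≠ 0 := by
      intro h0
      apply hxy
      have h3 : s * (s * (x : ℤ)) = s * (s * (y : ℤ)) := by
        have : s * (x : ℤ) = s * y := by linarith
        rw [this]
      rw [← mul_assoc, ← mul_assoc, hss, one_mul, one_mul] at h3
      exact_mod_cast h3
    have habs : |s * (x : ℤ) - s * y| ≤ (n : ℤ) ^ D := by
      rw [abs_le]
      constructor <;> linarith [h1.2.1, h1.2.2, h2.2.1, h2.2.2]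
    have hle : ((Nat.gcd x y : ℕ) : ℤ) ≤ |s * (x : ℤ) - s * y| :=
      Int.le_of_dvd (abs_pos.2 hne) ((dvd_abs _ _).2 hd)
    have := hle.trans habs
    exact_mod_cast this
  have himg : (B.image col).card ≤ T.card := by
    refine Finset.card_le_card ?_
    intro t ht
    obtain ⟨x, hx, rfl⟩ := Finset.mem_image.1 ht
    exact (hcolB x hx).1
  have hBn : B.card ≤ n := by
    rw [hBc, hn]
    exact Finset.card_le_card (Finset.filter_subset _ _)
  have hfin := h B ℤ inferInstance col n T.card hn1 hT1 (fun x hx => (hBmem x hx).1) hgc himg hBn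
    (by rw [hBc]; exact hsn)
  have hprod : (B * B).card ≤ (A * A).card := by
    refine Finset.card_le_card_of_injOn (fun x : ℕ => (x : ℤ)) ?_
      (Nat.cast_injective (R := ℤ)).injOn
    intro x hx
    obtain ⟨y, hy, z, hz, rfl⟩ := Finset.mem_mul.1 (Finset.mem_coe.1 hx)
    rw [Finset.mem_coe, Finset.mem_mul]
    refine ⟨s * y, (hBmem y hy).2, s * z, (hBmem z hz).2, ?_⟩
    push_cast
    calc s * (y : ℤ) * (s * z) = (s * s) * (y * z) := by ring
      _ = (y : ℤ) * z := by rw [hss, one_mul]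
  have hmin : min c (1 / 16) ≤ c := min_le_left _ _
  calc min c (1 / 16) * (n : ℝ) ^ (-ε) * M ≤ c * (n : ℝ) ^ (-ε) * M :=
        mul_le_mul_of_nonneg_right (mul_le_mul_of_nonneg_right hmin hnε) hM0
    _ ≤ ((B * B).card : ℝ) := hfin
    _ ≤ _ := by exact_mod_cast hprod

end Pool.Agent.Y385.SPI
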