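import Mathlib

set_option autoImplicit false

/-!
# The one-variable inequality

A function `a + g` of one random variable, `g` of mean zero and small, has `2m`-th moment at most
`(|a|^2 + G^2)^m`.
-/

namespace Pool.Agent.Y385.SPI

open Finset

/-- difference of powers -/
theorem abs_pow_sub (X Y c : ℝ) (hX : 0 ≤ X) (hY : 0 ≤ Y) (hXc : X ≤ c) (hYc : Y ≤ c) (m : ℕ) :
    |X ^ m - Y ^ m| ≤ m * c ^ (m - 1) * |X - Y| := by
  have hc : 0 ≤ c := le_trans hX hXc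
  induction m with
  | zero => simp
  | succ m ih =>
    have e : X ^ (m + 1) - Y ^ (m + 1) = X * (X ^ m - Y ^ m) + Y ^ m * (X - Y) := by ring
    rw [e]
    refine (abs_add_le _ _).trans ?_
    rw [abs_mul, abs_mul, abs_of_nonneg hX, abs_of_nonneg (pow_nonneg hY m)]
    have h1 : X * |X ^ m - Y ^ m| ≤ c * (m * c ^ (m - 1) * |X - Y|) :=
      mul_le_mul hXc ih (abs_nonneg _) hc
    have h2 : Y ^ m * |X - Y| ≤ c ^ m * |X - Y| :=
      mul_le_mul_of_nonneg_right (pow_le_pow_left₀ hY hYc m) (abs_nonneg _)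
    have h3 : c * (m * c ^ (m - 1) * |X - Y|) = m * c ^ m * |X - Y| := by
      rcases Nat.eq_zero_or_pos m with rfl | hm
      · simp
      · have : c ^ m = c * c ^ (m - 1) := by
          rw [← pow_succ']; congr 1; omega
        rw [this]; ring
    rw [h3] at h1
    simp only [Nat.add_sub_cancel, Nat.cast_add, Nat.cast_one]
    nlinarith [h1, h2]

/-- the pointwise second order inequality -/
theorem point (a u : ℂ) (m : ℕ) :
    (‖a + u‖ ^ 2) ^ m ≤ (‖a‖ ^ 2) ^ m + m * (‖a‖ ^ 2) ^ (m - 1) * (2 * (a.re * u.re + a.im * u.im)) +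
      m * (2 * m - 1) * ((‖a‖ + ‖u‖) ^ 2) ^ (m - 1) * ‖u‖ ^ 2 := by
  set X : ℝ := ‖a + u‖ ^ 2 with hX
  set Y : ℝ := ‖a‖ ^ 2 with hY
  set s : ℝ := 2 * (a.re * u.re + a.im * u.im) with hs
  set c : ℝ := ‖a‖ + ‖u‖ with hc
  have hXeq : X = Y + s + ‖u‖ ^ 2 := by
    rw [hX, hY, hs, Complex.sq_norm, Complex.sq_norm, Complex.sq_norm, Complex.normSq_apply,
      Complex.normSq_apply, Complex.normSq_apply, Complex.add_re, Complex.add_im]
    ring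
  have hX0 : 0 ≤ X := by positivity
  have hY0 : 0 ≤ Y := by positivity
  have hc0 : 0 ≤ c := by positivity
  have hXc : X ≤ c ^ 2 := by
    rw [hX, hc]
    exact pow_le_pow_left₀ (norm_nonneg _) (norm_add_le _ _) 2
  have hYc : Y ≤ c ^ 2 := by
    rw [hY, hc]
    exact pow_le_pow_left₀ (norm_nonneg _) (by linarith [norm_nonneg u]) 2
  have hin : |a.re * u.re + a.im * u.im| ≤ ‖a‖ * ‖u‖ := by
    rw [← Real.sqrt_sq (mul_nonneg (norm_nonneg a) (norm_nonneg u))]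
    refine Real.abs_le_sqrt ?_
    rw [mul_pow, Complex.sq_norm, Complex.sq_norm, Complex.normSq_apply, Complex.normSq_apply]
    nlinarith [sq_nonneg (a.re * u.im - a.im * u.re)]
  have hsabs : |s| ≤ 2 * c * ‖u‖ := by
    rw [hs, abs_mul, abs_of_pos (by norm_num : (0 : ℝ) < 2)]
    have : ‖a‖ * ‖u‖ ≤ c * ‖u‖ :=
      mul_le_mul_of_nonneg_right (by rw [hc]; linarith [norm_nonneg u]) (norm_nonneg _)
    nlinarith
  have hXY : |X - Y| ≤ 2 * c * ‖u‖ := by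
    have : X - Y = s + ‖u‖ ^ 2 := by rw [hXeq]; ring
    rw [this, hs]
    refine (abs_add_le _ _).trans ?_
    have hu2 : |‖u‖ ^ 2| = ‖u‖ ^ 2 := abs_of_nonneg (sq_nonneg _)
    rw [hu2, abs_mul, abs_of_pos (by norm_num : (0 : ℝ) < 2), hc]
    nlinarith [norm_nonneg u, norm_nonneg a, mul_nonneg (norm_nonneg u) (norm_nonneg u)]
  have key : ∀ k : ℕ, X ^ k ≤ Y ^ k + k * Y ^ (k - 1) * s +
      k * (2 * k - 1) * (c ^ 2) ^ (k - 1) * ‖u‖ ^ 2 := by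
    intro k
    induction k with
    | zero => simp
    | succ k ih =>
      rcases Nat.eq_zero_or_pos k with rfl | hk
      · simp only [zero_add, pow_one, Nat.cast_one, Nat.sub_self, pow_zero, mul_one, one_mul]
        rw [hXeq]; nlinarith
      · have e1 : X ^ (k + 1) = Y * (X ^ k - Y ^ k - k * Y ^ (k - 1) * s) + Y ^ (k + 1)
            + k * (Y * Y ^ (k - 1)) * s + Y ^ k * s + s * (X ^ k - Y ^ k) + ‖u‖ ^ 2 * X ^ k := by
          calc X ^ (k + 1) = X ^ k * X := pow_succ _ _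
            _ = X ^ k * (Y + s + ‖u‖ ^ 2) := by rw [← hXeq]
            _ = _ := by ring
        have e2 : Y * Y ^ (k - 1) = Y ^ k := by
          rw [← pow_succ']; congr 1; omega
        have e3 : c ^ 2 * (c ^ 2) ^ (k - 1) = (c ^ 2) ^ k := by
          rw [← pow_succ']; congr 1; omega
        rw [e2] at e1
        have b1 : Y * (X ^ k - Y ^ k - k * Y ^ (k - 1) * s) ≤
            k * (2 * k - 1) * (c ^ 2) ^ k * ‖u‖ ^ 2 := by
          have i1 : X ^ k - Y ^ k - k * Y ^ (k - 1) * s ≤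
              k * (2 * k - 1) * (c ^ 2) ^ (k - 1) * ‖u‖ ^ 2 := by linarith
          have hk1 : (1 : ℝ) ≤ k := by exact_mod_cast hk
          have i2 : 0 ≤ k * (2 * (k : ℝ) - 1) * (c ^ 2) ^ (k - 1) * ‖u‖ ^ 2 := by
            have : 0 ≤ 2 * (k : ℝ) - 1 := by linarith
            positivity
          calc Y * (X ^ k - Y ^ k - k * Y ^ (k - 1) * s)
              ≤ Y * (k * (2 * k - 1) * (c ^ 2) ^ (k - 1) * ‖u‖ ^ 2) :=
                mul_le_mul_of_nonneg_left i1 hY0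
            _ ≤ c ^ 2 * (k * (2 * k - 1) * (c ^ 2) ^ (k - 1) * ‖u‖ ^ 2) :=
                mul_le_mul_of_nonneg_right hYc i2
            _ = k * (2 * k - 1) * (c ^ 2 * (c ^ 2) ^ (k - 1)) * ‖u‖ ^ 2 := by ring
            _ = _ := by rw [e3]
        have b2 : s * (X ^ k - Y ^ k) ≤ 4 * k * (c ^ 2) ^ k * ‖u‖ ^ 2 := by
          have h1 := abs_pow_sub X Y (c ^ 2) hX0 hY0 hXc hYc k
          calc s * (X ^ k - Y ^ k) ≤ |s * (X ^ k - Y ^ k)| := le_abs_self _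
            _ = |s| * |X ^ k - Y ^ k| := abs_mul _ _
            _ ≤ (2 * c * ‖u‖) * (k * (c ^ 2) ^ (k - 1) * |X - Y|) :=
                mul_le_mul hsabs h1 (abs_nonneg _) (by positivity)
            _ ≤ (2 * c * ‖u‖) * (k * (c ^ 2) ^ (k - 1) * (2 * c * ‖u‖)) := by
                refine mul_le_mul_of_nonneg_left ?_ (by positivity)
                exact mul_le_mul_of_nonneg_left hXY (by positivity)
            _ = 4 * k * (c ^ 2 * (c ^ 2) ^ (k - 1)) * ‖u‖ ^ 2 := by ring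
            _ = _ := by rw [e3]
        have b3 : ‖u‖ ^ 2 * X ^ k ≤ (c ^ 2) ^ k * ‖u‖ ^ 2 := by
          rw [mul_comm]
          exact mul_le_mul_of_nonneg_right (pow_le_pow_left₀ hX0 hXc k) (by positivity)
        have e4 : ((k + 1 : ℕ) : ℝ) = (k : ℝ) + 1 := by push_cast; ring
        rw [e4, Nat.add_sub_cancel, e1]
        nlinarith [b1, b2, b3]
  exact key m

/-- The one-variable inequality. `avg` is the mean over `Ω`. -/
theorem one_var {Ω : Type*} [Fintype Ω] [Nonempty Ω] (m : ℕ) (hm : 1 ≤ m) (κ G : ℝ)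
    (hG : 0 ≤ G) (hκ1 : κ ≤ 1) (hκm : m * (2 * m - 1) * 2 ^ (m - 1) * κ ^ 2 ≤ 1)
    (a : ℂ) (g : Ω → ℂ) (hmean : ∑ k, g k = 0) (hbd : ∀ k, ‖g k‖ ≤ κ * G) :
    ∑ k, (‖a + g k‖ ^ 2) ^ m ≤ Fintype.card Ω * (‖a‖ ^ 2 + G ^ 2) ^ m := by
  have hm1 : (1 : ℝ) ≤ m := by exact_mod_cast hm
  have hre : ∑ k, (g k).re = 0 := by
    have := congrArg Complex.re hmean
    simpa using this
  have him : ∑ k, (g k).im = 0 := by
    have := congrArg Complex.im hmean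
    simpa using this
  set N : ℝ := (Fintype.card Ω : ℝ) with hN
  have hN0 : 0 ≤ N := by positivity
  have h1 : ∑ k, (‖a + g k‖ ^ 2) ^ m ≤ ∑ k, ((‖a‖ ^ 2) ^ m +
      m * (‖a‖ ^ 2) ^ (m - 1) * (2 * (a.re * (g k).re + a.im * (g k).im)) +
      m * (2 * m - 1) * ((‖a‖ + ‖g k‖) ^ 2) ^ (m - 1) * ‖g k‖ ^ 2) :=
    Finset.sum_le_sum fun k _ => point a (g k) m
  refine h1.trans ?_
  rw [Finset.sum_add_distrib, Finset.sum_add_distrib]
  have e1 : ∑ _k : Ω, (‖a‖ ^ 2) ^ m = N * (‖a‖ ^ 2) ^ m := by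
    rw [Finset.sum_const, Finset.card_univ, nsmul_eq_mul]
  have e2 : ∑ k, (m * (‖a‖ ^ 2) ^ (m - 1) * (2 * (a.re * (g k).re + a.im * (g k).im))) = 0 := by
    have : ∀ k, m * (‖a‖ ^ 2) ^ (m - 1) * (2 * (a.re * (g k).re + a.im * (g k).im)) =
        (m * (‖a‖ ^ 2) ^ (m - 1) * 2 * a.re) * (g k).re +
        (m * (‖a‖ ^ 2) ^ (m - 1) * 2 * a.im) * (g k).im := fun k => by ring
    rw [Finset.sum_congr rfl fun k _ => this k, Finset.sum_add_distrib, ← Finset.mul_sum,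
      ← Finset.mul_sum, hre, him]
    ring
  have e3 : ∑ k, (m * (2 * m - 1) * ((‖a‖ + ‖g k‖) ^ 2) ^ (m - 1) * ‖g k‖ ^ 2) ≤
      N * (G ^ 2 * (‖a‖ ^ 2 + G ^ 2) ^ (m - 1)) := by
    have hpt : ∀ k, m * (2 * m - 1) * ((‖a‖ + ‖g k‖) ^ 2) ^ (m - 1) * ‖g k‖ ^ 2 ≤
        G ^ 2 * (‖a‖ ^ 2 + G ^ 2) ^ (m - 1) := by
      intro k
      have hgk := hbd k
      have hgG : ‖g k‖ ≤ G := hgk.trans (by nlinarith)
      have i1 : (‖a‖ + ‖g k‖) ^ 2 ≤ 2 * (‖a‖ ^ 2 + G ^ 2) := by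
        have : (‖a‖ + ‖g k‖) ^ 2 ≤ (‖a‖ + G) ^ 2 :=
          pow_le_pow_left₀ (by positivity) (by linarith) 2
        nlinarith [sq_nonneg (‖a‖ - G)]
      have i2 : ((‖a‖ + ‖g k‖) ^ 2) ^ (m - 1) ≤ 2 ^ (m - 1) * (‖a‖ ^ 2 + G ^ 2) ^ (m - 1) := by
        rw [← mul_pow]
        exact pow_le_pow_left₀ (by positivity) i1 _
      have i3 : ‖g k‖ ^ 2 ≤ κ ^ 2 * G ^ 2 := by
        rw [← mul_pow]
        exact pow_le_pow_left₀ (norm_nonneg _) hgk 2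
      have h2m : 0 ≤ (m : ℝ) * (2 * m - 1) := by nlinarith
      calc m * (2 * m - 1) * ((‖a‖ + ‖g k‖) ^ 2) ^ (m - 1) * ‖g k‖ ^ 2
          ≤ m * (2 * m - 1) * (2 ^ (m - 1) * (‖a‖ ^ 2 + G ^ 2) ^ (m - 1)) * (κ ^ 2 * G ^ 2) := by
            refine mul_le_mul (mul_le_mul_of_nonneg_left i2 h2m) i3 (by positivity) ?_
            positivity
        _ = (m * (2 * m - 1) * 2 ^ (m - 1) * κ ^ 2) * (G ^ 2 * (‖a‖ ^ 2 + G ^ 2) ^ (m - 1)) := by
            ring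
        _ ≤ 1 * (G ^ 2 * (‖a‖ ^ 2 + G ^ 2) ^ (m - 1)) :=
            mul_le_mul_of_nonneg_right hκm (by positivity)
        _ = _ := one_mul _
    calc _ ≤ ∑ _k : Ω, G ^ 2 * (‖a‖ ^ 2 + G ^ 2) ^ (m - 1) := Finset.sum_le_sum fun k _ => hpt k
      _ = _ := by rw [Finset.sum_const, Finset.card_univ, nsmul_eq_mul]
  have e4 : (‖a‖ ^ 2) ^ m + G ^ 2 * (‖a‖ ^ 2 + G ^ 2) ^ (m - 1) ≤ (‖a‖ ^ 2 + G ^ 2) ^ m := by
    have hs : (‖a‖ ^ 2 + G ^ 2) ^ m = (‖a‖ ^ 2 + G ^ 2) * (‖a‖ ^ 2 + G ^ 2) ^ (m - 1) := by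
      rw [← pow_succ']; congr 1; omega
    have hs2 : (‖a‖ ^ 2) ^ m = ‖a‖ ^ 2 * (‖a‖ ^ 2) ^ (m - 1) := by
      rw [← pow_succ']; congr 1; omega
    rw [hs, hs2, add_mul]
    have : (‖a‖ ^ 2) ^ (m - 1) ≤ (‖a‖ ^ 2 + G ^ 2) ^ (m - 1) :=
      pow_le_pow_left₀ (by positivity) (by nlinarith [sq_nonneg G]) _
    have := mul_le_mul_of_nonneg_left this (by positivity : 0 ≤ ‖a‖ ^ 2)
    linarith
  rw [e1, e2]
  calc N * (‖a‖ ^ 2) ^ m + 0 + _ ≤ N * (‖a‖ ^ 2) ^ m + 0 +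
        N * (G ^ 2 * (‖a‖ ^ 2 + G ^ 2) ^ (m - 1)) := by linarith [e3]
    _ = N * ((‖a‖ ^ 2) ^ m + G ^ 2 * (‖a‖ ^ 2 + G ^ 2) ^ (m - 1)) := by ring
    _ ≤ _ := mul_le_mul_of_nonneg_left e4 hN0

end Pool.Agent.Y385.SPI
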