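import Pool.Agent.Y385.SPI.Tens

set_option autoImplicit false

/-!
# Ratios from a set of reduced fractions

For a finite set `A` of positive integers and a set `P` of reduced fractions, the number of
solutions of `x / z = w / y` in `A` with common value in `P` is nearly at most `|A| ^ 2`.
-/

namespace Pool.Agent.Y385.SPI

open Finset

/-- the roots of unity of order `D + 1` -/
noncomputable def rt (D : ℕ) (k : Fin (D + 1)) : ℂ :=
  Complex.exp (2 * Real.pi * Complex.I / ((D + 1 : ℕ) : ℂ)) ^ (k : ℕ)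

theorem rt_prim (D : ℕ) :
    IsPrimitiveRoot (Complex.exp (2 * Real.pi * Complex.I / ((D + 1 : ℕ) : ℂ))) (D + 1) :=
  Complex.isPrimitiveRoot_exp (D + 1) (Nat.succ_ne_zero D)

theorem rt_norm (D : ℕ) (k : Fin (D + 1)) : ‖rt D k‖ = 1 := by
  unfold rt
  rw [norm_pow, (rt_prim D).norm'_eq_one (Nat.succ_ne_zero D), one_pow]

theorem rt_sum (D : ℕ) (e : ℤ) (he : e ≠ 0) (heD : |e| ≤ D) : ∑ k, rt D k ^ e = 0 := by
  set ζ := Complex.exp (2 * Real.pi * Complex.I / ((D + 1 : ℕ) : ℂ)) with hζ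
  have hp := rt_prim D
  rw [← hζ] at hp
  have h1 : ∀ k : Fin (D + 1), rt D k ^ e = (ζ ^ e) ^ (k : ℕ) := by
    intro k
    unfold rt
    rw [← zpow_natCast, ← zpow_natCast, ← zpow_mul, ← zpow_mul, mul_comm ((k : ℕ) : ℤ) e]
  rw [Finset.sum_congr rfl fun k _ => h1 k, Fin.sum_univ_eq_sum_range (fun k => (ζ ^ e) ^ k)]
  have hne : ζ ^ e ≠ 1 := by
    intro h
    have hd := (hp.zpow_eq_one_iff_dvd e).1 h
    have := Int.eq_zero_of_abs_lt_dvd hd (by push_cast; omega)
    exact he this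
  have hpow : (ζ ^ e) ^ (D + 1) = 1 := by
    rw [← zpow_natCast, ← zpow_mul, mul_comm, zpow_mul, zpow_natCast, hp.pow_eq_one, one_zpow]
  have hg := mul_geom_sum (ζ ^ e) (D + 1)
  rw [hpow, sub_self] at hg
  rcases mul_eq_zero.1 hg with h | h
  · exact absurd (sub_eq_zero.1 h) hne
  · exact h

theorem orth (D n : ℕ) (v : Fin n → ℤ) (hv : ∀ i, |v i| ≤ D) :
    ∑ θ : Fin n → Fin (D + 1), chi (rt D) v θ = if v = 0 then ((D + 1 : ℕ) : ℂ) ^ n else 0 := by
  have h1 : ∑ θ : Fin n → Fin (D + 1), chi (rt D) v θ = ∏ i, ∑ k, rt D k ^ v i := by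
    unfold chi
    rw [Finset.prod_univ_sum, Fintype.piFinset_univ]
  rw [h1]
  split_ifs with h
  · subst h
    simp
  · obtain ⟨i, hi⟩ : ∃ i, v i ≠ 0 := by
      by_contra hcon
      push Not at hcon
      exact h (funext hcon)
    exact Finset.prod_eq_zero (Finset.mem_univ i) (rt_sum D (v i) hi (hv i))

theorem rt_ne (D : ℕ) (k : Fin (D + 1)) : rt D k ≠ 0 := by
  intro h
  have := rt_norm D k
  rw [h] at this
  simp at this

theorem chi_add (D : ℕ) {n : ℕ} (v w : Fin n → ℤ) (θ : Fin n → Fin (D + 1)) :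
    chi (rt D) (v + w) θ = chi (rt D) v θ * chi (rt D) w θ := by
  unfold chi
  rw [← Finset.prod_mul_distrib]
  exact Finset.prod_congr rfl fun i _ => by rw [Pi.add_apply, zpow_add₀ (rt_ne D _)]

theorem chi_neg (D : ℕ) {n : ℕ} (v : Fin n → ℤ) (θ : Fin n → Fin (D + 1)) :
    chi (rt D) (-v) θ = (starRingEnd ℂ) (chi (rt D) v θ) := by
  unfold chi
  rw [map_prod]
  refine Finset.prod_congr rfl fun i _ => ?_
  rw [Pi.neg_apply, zpow_neg, map_zpow₀, ← Complex.inv_eq_conj (rt_norm D _), inv_zpow]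

theorem chi_norm (D : ℕ) {n : ℕ} (v : Fin n → ℤ) (θ : Fin n → Fin (D + 1)) :
    ‖chi (rt D) v θ‖ = 1 := by
  unfold chi
  rw [norm_prod]
  refine Finset.prod_eq_one fun i _ => ?_
  rw [norm_zpow, rt_norm, one_zpow]

/-- weighted power mean inequality -/
theorem wjensen {Θ : Type*} [Fintype Θ] (w y : Θ → ℝ) (hw : ∀ θ, 0 ≤ w θ) (hy : ∀ θ, 0 ≤ y θ)
    (k : ℕ) (hk : 1 ≤ k) :
    (∑ θ, w θ * y θ) ^ k ≤ (∑ θ, w θ) ^ (k - 1) * ∑ θ, w θ * y θ ^ k := by
  have hk0 : k ≠ 0 := by omega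
  set S : ℝ := ∑ θ, w θ with hS
  have hS0 : 0 ≤ S := Finset.sum_nonneg fun θ _ => hw θ
  rcases eq_or_lt_of_le hS0 with h | h
  · have hz : ∀ θ ∈ (Finset.univ : Finset Θ), w θ = 0 :=
      (Finset.sum_eq_zero_iff_of_nonneg fun θ _ => hw θ).1 h.symm
    have h1 : ∑ θ, w θ * y θ = 0 := Finset.sum_eq_zero fun θ hθ => by rw [hz θ hθ, zero_mul]
    have h2 : ∑ θ, w θ * y θ ^ k = 0 := Finset.sum_eq_zero fun θ hθ => by rw [hz θ hθ, zero_mul]
    rw [h1, h2, zero_pow hk0, mul_zero]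
  · have e1 : ∑ θ, w θ * y θ = S * ∑ θ, w θ / S * y θ := by
      rw [Finset.mul_sum]
      refine Finset.sum_congr rfl fun θ _ => ?_
      field_simp
    have e2 : ∑ θ, w θ / S = 1 := by rw [← Finset.sum_div]; exact div_self h.ne'
    have e3 := Real.pow_arith_mean_le_arith_mean_pow Finset.univ (fun θ => w θ / S) y
      (fun θ _ => div_nonneg (hw θ) hS0) e2 (fun θ _ => hy θ) k
    rw [e1, mul_pow]
    calc S ^ k * (∑ θ, w θ / S * y θ) ^ k ≤ S ^ k * ∑ θ, w θ / S * y θ ^ k :=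
          mul_le_mul_of_nonneg_left e3 (by positivity)
      _ = S ^ (k - 1) * ∑ θ, w θ * y θ ^ k := by
          have : S ^ k = S ^ (k - 1) * S := by rw [← pow_succ]; congr 1; omega
          rw [this, mul_assoc, Finset.mul_sum]
          congr 1
          refine Finset.sum_congr rfl fun θ _ => ?_
          field_simp

/-- the exponents of `x` at the first `n` primes -/
noncomputable def freq (n x : ℕ) (i : Fin n) : ℤ := (x.factorization (Nat.nth Nat.Prime i) : ℤ)

theorem freq_mul (n x y : ℕ) (hx : x ≠ 0) (hy : y ≠ 0) : freq n (x * y) = freq n x + freq n y := by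
  funext i
  unfold freq
  rw [Pi.add_apply, Nat.factorization_mul hx hy]
  simp

theorem freq_inj (n x y : ℕ) (hx : x ≠ 0) (hy : y ≠ 0) (hxn : x < n) (hyn : y < n)
    (h : freq n x = freq n y) : x = y := by
  refine Nat.eq_of_factorization_eq hx hy fun p => ?_
  by_cases hp : p.Prime
  · by_cases hpn : p < n
    · have hc : Nat.count Nat.Prime p < n := lt_of_le_of_lt (Nat.count_le _) hpn
      have h1 := congrFun h ⟨Nat.count Nat.Prime p, hc⟩
      unfold freq at h1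
      simp only [Nat.nth_count hp] at h1
      exact_mod_cast h1
    · rw [Nat.factorization_eq_zero_of_lt (by omega), Nat.factorization_eq_zero_of_lt (by omega)]
  · rw [Nat.factorization_eq_zero_of_not_prime _ hp, Nat.factorization_eq_zero_of_not_prime _ hp]

theorem freq_bound (n x : ℕ) (hx : x ≠ 0) (hxn : x < n) (i : Fin n) : 0 ≤ freq n x i ∧ freq n x i < n := by
  unfold freq
  have := Nat.factorization_lt (Nat.nth Nat.Prime i) hx
  constructor
  · positivity
  · have : x.factorization (Nat.nth Nat.Prime i) < n := by omega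
    exact_mod_cast this

/-- the number of pairs in `A` with `z / x = c / b`, `p = (b, c)` -/
def rep (A : Finset ℕ) (p : ℕ × ℕ) : ℕ :=
  ((A ×ˢ A).filter fun q => p.2 * q.1 = p.1 * q.2).card

/-- the frequency of the fraction `c / b` -/
noncomputable def fr (n : ℕ) (p : ℕ × ℕ) : Fin n → ℤ := freq n p.2 - freq n p.1

theorem core (m : ℕ) (hm : 1 ≤ m) (C : ℝ) (hC : 2 ≤ C)
    (hCm : 4 * (m * (2 * m - 1) * 2 ^ (m - 1)) ≤ C ^ 2)
    (A : Finset ℕ) (hA : ∀ x ∈ A, x ≠ 0) (P : Finset (ℕ × ℕ))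
    (hP : ∀ p ∈ P, p.1 ≠ 0 ∧ p.2 ≠ 0 ∧ Nat.Coprime p.1 p.2) (n : ℕ)
    (hn : ∀ x ∈ A, ∀ p ∈ P, x * p.1 < n ∧ x * p.2 < n ∧ p.1 * p.2 < n ∧ p.1 < n ∧ p.2 < n)
    (hn2 : ∀ p ∈ P, ∀ q ∈ P, p.1 * q.2 < n)
    (Wm : ℝ) (hW : ∀ p ∈ P, Wt C (fr n p) ≤ Wm) :
    (∑ p ∈ P, (rep A p : ℝ) ^ 2) ^ m ≤ (A.card : ℝ) ^ (2 * m + 1) * (Wm ^ 2) ^ m := by
  classical
  rcases P.eq_empty_or_nonempty with rfl | ⟨p₀, hp₀⟩
  · have hm0 : m ≠ 0 := by omega
    simp only [Finset.sum_empty, zero_pow hm0]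
    positivity
  rcases A.eq_empty_or_nonempty with rfl | ⟨x₀, hx₀⟩
  · have hm0 : m ≠ 0 := by omega
    simp [rep, zero_pow hm0]
  set D : ℕ := 4 * n with hD
  set N : ℝ := ((D + 1 : ℕ) : ℝ) with hN
  have hNpos : 0 < N := by rw [hN]; positivity
  set S : ℝ := ∑ p ∈ P, (rep A p : ℝ) ^ 2 with hS
  have hS0 : 0 ≤ S := Finset.sum_nonneg fun p _ => by positivity
  have hAn : ∀ x ∈ A, x < n := fun x hx => by
    have h1 := (hn x hx p₀ hp₀).1
    have h2 := Nat.pos_of_ne_zero (hP p₀ hp₀).1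
    calc x = x * 1 := (mul_one x).symm
      _ ≤ x * p₀.1 := Nat.mul_le_mul_left x h2
      _ < n := h1
  set f : (Fin n → Fin (D + 1)) → ℂ := fun θ => ∑ x ∈ A, chi (rt D) (freq n x) θ with hf
  set g : (Fin n → Fin (D + 1)) → ℂ := fun θ => ∑ p ∈ P, (rep A p : ℂ) * chi (rt D) (fr n p) θ
    with hg
  have hfrb : ∀ p ∈ P, ∀ i, |fr n p i| ≤ n := by
    intro p hp i
    have h1 := freq_bound n p.1 (hP p hp).1 (hn x₀ hx₀ p hp).2.2.2.1 i
    have h2 := freq_bound n p.2 (hP p hp).2.1 (hn x₀ hx₀ p hp).2.2.2.2 i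
    unfold fr
    rw [Pi.sub_apply, abs_le]
    constructor <;> omega
  -- the main identity
  have hmain : ∑ θ, f θ * (starRingEnd ℂ) (f θ) * (starRingEnd ℂ) (g θ) =
      ((D + 1 : ℕ) : ℂ) ^ n * (S : ℂ) := by
    have h1 : ∀ θ, f θ * (starRingEnd ℂ) (f θ) * (starRingEnd ℂ) (g θ) =
        ∑ p ∈ P, ∑ q ∈ A ×ˢ A, (rep A p : ℂ) * chi (rt D) (freq n q.2 + -freq n q.1 + -fr n p) θ := by
      intro θ
      have hg2 : (starRingEnd ℂ) (g θ) = ∑ p ∈ P, (rep A p : ℂ) * chi (rt D) (-fr n p) θ := by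
        rw [hg, map_sum]
        refine Finset.sum_congr rfl fun p _ => ?_
        rw [map_mul, Complex.conj_natCast, chi_neg]
      have hf2 : (starRingEnd ℂ) (f θ) = ∑ x ∈ A, chi (rt D) (-freq n x) θ := by
        rw [hf, map_sum]
        exact Finset.sum_congr rfl fun x _ => by rw [chi_neg]
      rw [hg2, hf2, hf]
      simp only
      rw [mul_comm (∑ x ∈ A, chi (rt D) (freq n x) θ) _, Finset.sum_mul_sum, ← Finset.sum_product',
        mul_comm, Finset.sum_mul_sum]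
      refine Finset.sum_congr rfl fun p _ => Finset.sum_congr rfl fun q _ => ?_
      rw [chi_add, chi_add]
      ring
    rw [Finset.sum_congr rfl fun θ _ => h1 θ, Finset.sum_comm]
    have h2 : ∀ p ∈ P, ∑ θ, ∑ q ∈ A ×ˢ A,
        (rep A p : ℂ) * chi (rt D) (freq n q.2 + -freq n q.1 + -fr n p) θ =
        ((D + 1 : ℕ) : ℂ) ^ n * (rep A p : ℂ) ^ 2 := by
      intro p hp
      rw [Finset.sum_comm]
      have h3 : ∀ q ∈ A ×ˢ A, ∑ θ, (rep A p : ℂ) * chi (rt D) (freq n q.2 + -freq n q.1 + -fr n p) θ =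
          (rep A p : ℂ) * (if p.2 * q.1 = p.1 * q.2 then ((D + 1 : ℕ) : ℂ) ^ n else 0) := by
        intro q hq
        rw [Finset.mem_product] at hq
        have hq1 := hA q.1 hq.1
        have hq2 := hA q.2 hq.2
        rw [← Finset.mul_sum, orth]
        · congr 1
          have hiff : freq n q.2 + -freq n q.1 + -fr n p = 0 ↔ p.2 * q.1 = p.1 * q.2 := by
            have e1 : freq n q.2 + -freq n q.1 + -fr n p = freq n (q.2 * p.1) - freq n (q.1 * p.2) := by
              rw [freq_mul n _ _ hq2 (hP p hp).1, freq_mul n _ _ hq1 (hP p hp).2.1]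
              unfold fr
              abel
            rw [e1, sub_eq_zero]
            constructor
            · intro h
              have := freq_inj n _ _ (mul_ne_zero hq2 (hP p hp).1) (mul_ne_zero hq1 (hP p hp).2.1)
                (hn q.2 hq.2 p hp).1 (hn q.1 hq.1 p hp).2.1 h
              rw [mul_comm p.2, ← this, mul_comm]
            · intro h
              congr 1
              rw [mul_comm q.2, ← h, mul_comm]
          simp only [hiff]
        · intro i
          have b1 := freq_bound n q.1 hq1 (hAn q.1 hq.1) i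
          have b2 := freq_bound n q.2 hq2 (hAn q.2 hq.2) i
          have b3 := abs_le.1 (hfrb p hp i)
          rw [Pi.add_apply, Pi.add_apply, Pi.neg_apply, Pi.neg_apply, abs_le, hD]
          push_cast
          constructor <;> omega
      rw [Finset.sum_congr rfl h3, ← Finset.mul_sum, ← Finset.sum_filter, Finset.sum_const,
        nsmul_eq_mul]
      unfold rep
      ring
    rw [Finset.sum_congr rfl h2, ← Finset.mul_sum, hS]
    push_cast
    rfl
  -- upper bound by absolute values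
  have hup : N ^ n * S ≤ ∑ θ, ‖f θ‖ ^ 2 * ‖g θ‖ := by
    have h1 : ‖((D + 1 : ℕ) : ℂ) ^ n * (S : ℂ)‖ = N ^ n * S := by
      rw [norm_mul, norm_pow, Complex.norm_natCast, Complex.norm_real, Real.norm_eq_abs,
        abs_of_nonneg hS0]
    rw [← h1, ← hmain]
    refine (norm_sum_le _ _).trans (le_of_eq ?_)
    refine Finset.sum_congr rfl fun θ _ => ?_
    rw [norm_mul, norm_mul, RCLike.norm_conj, RCLike.norm_conj]
    ring
  -- second moment of f
  have hf2 : ∑ θ, ‖f θ‖ ^ 2 = N ^ n * (A.card : ℝ) := by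
    have h1 : ∀ θ, ((‖f θ‖ ^ 2 : ℝ) : ℂ) =
        ∑ q ∈ A ×ˢ A, chi (rt D) (freq n q.1 + -freq n q.2) θ := by
      intro θ
      have hf2 : (starRingEnd ℂ) (f θ) = ∑ x ∈ A, chi (rt D) (-freq n x) θ := by
        rw [hf, map_sum]
        exact Finset.sum_congr rfl fun x _ => by rw [chi_neg]
      have : ((‖f θ‖ ^ 2 : ℝ) : ℂ) = f θ * (starRingEnd ℂ) (f θ) := by
        rw [Complex.mul_conj, Complex.normSq_eq_norm_sq]
      rw [this, hf2, hf]
      simp only
      rw [Finset.sum_mul_sum, ← Finset.sum_product']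
      exact Finset.sum_congr rfl fun q _ => by rw [chi_add]
    have h2 : ((∑ θ, ‖f θ‖ ^ 2 : ℝ) : ℂ) = ((N ^ n * (A.card : ℝ) : ℝ) : ℂ) := by
      rw [Complex.ofReal_sum, Finset.sum_congr rfl fun θ _ => h1 θ, Finset.sum_comm]
      have h3 : ∀ q ∈ A ×ˢ A, ∑ θ, chi (rt D) (freq n q.1 + -freq n q.2) θ =
          if q.1 = q.2 then ((D + 1 : ℕ) : ℂ) ^ n else 0 := by
        intro q hq
        rw [Finset.mem_product] at hq
        have hq1 := hA q.1 hq.1
        have hq2 := hA q.2 hq.2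
        rw [orth]
        · have hiff : freq n q.1 + -freq n q.2 = 0 ↔ q.1 = q.2 := by
            rw [← sub_eq_add_neg, sub_eq_zero]
            exact ⟨fun h => freq_inj n _ _ hq1 hq2 (hAn _ hq.1) (hAn _ hq.2) h, fun h => by rw [h]⟩
          simp only [hiff]
        · intro i
          have b1 := freq_bound n q.1 hq1 (hAn q.1 hq.1) i
          have b2 := freq_bound n q.2 hq2 (hAn q.2 hq.2) i
          rw [Pi.add_apply, Pi.neg_apply, abs_le, hD]
          push_cast
          constructor <;> omega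
      rw [Finset.sum_congr rfl h3, ← Finset.sum_filter, Finset.sum_const, nsmul_eq_mul]
      have h4 : ((A ×ˢ A).filter fun q => q.1 = q.2).card = A.card := by
        rw [← Finset.diag_eq_filter, Finset.diag_card]
      rw [h4, hN]
      push_cast
      ring
    exact_mod_cast h2
  have hfle : ∀ θ, ‖f θ‖ ^ 2 ≤ (A.card : ℝ) ^ 2 := by
    intro θ
    refine pow_le_pow_left₀ (norm_nonneg _) ?_ 2
    refine (norm_sum_le _ _).trans (le_of_eq ?_)
    rw [Finset.sum_congr rfl fun x _ => chi_norm D (freq n x) θ]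
    simp
  -- high moment of g
  have hinj : Set.InjOn (fr n) (P : Set (ℕ × ℕ)) := by
    intro p hp q hq h
    have hp' := hP p hp
    have hq' := hP q hq
    have h1 : freq n (p.1 * q.2) = freq n (q.1 * p.2) := by
      rw [freq_mul n _ _ hp'.1 hq'.2.1, freq_mul n _ _ hq'.1 hp'.2.1]
      have h2 : freq n p.2 - freq n p.1 = freq n q.2 - freq n q.1 := h
      rw [sub_eq_sub_iff_add_eq_add] at h2
      rw [add_comm, add_comm (freq n q.1), h2]
    have h2 := freq_inj n _ _ (mul_ne_zero hp'.1 hq'.2.1) (mul_ne_zero hq'.1 hp'.2.1)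
      (hn2 p hp q hq) (hn2 q hq p hp) h1
    -- p.1 * q.2 = q.1 * p.2
    have d1 : p.1 ∣ q.1 := hp'.2.2.dvd_of_dvd_mul_right ⟨q.2, h2.symm⟩
    have d2 : q.1 ∣ p.1 := hq'.2.2.dvd_of_dvd_mul_right ⟨p.2, h2⟩
    have e1 : p.1 = q.1 := Nat.dvd_antisymm d1 d2
    have e2 : p.2 = q.2 := by
      rw [e1] at h2
      exact (Nat.eq_of_mul_eq_mul_left (Nat.pos_of_ne_zero hq'.1) h2).symm
    exact Prod.ext e1 e2
  have hgm : ∑ θ, (‖g θ‖ ^ 2) ^ m ≤ N ^ n * (Wm ^ 2 * S) ^ m := by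
    set a : (Fin n → ℤ) → ℂ := fun v => ∑ p ∈ P.filter (fun p => fr n p = v), (rep A p : ℂ) with ha
    have ha1 : ∀ p ∈ P, a (fr n p) = (rep A p : ℂ) := by
      intro p hp
      rw [ha]
      have : P.filter (fun q => fr n q = fr n p) = {p} := by
        ext q
        rw [Finset.mem_filter, Finset.mem_singleton]
        exact ⟨fun h => hinj h.1 hp h.2, fun h => by rw [h]; exact ⟨hp, rfl⟩⟩
      simp only [this, Finset.sum_singleton]
    have ht := tens (rt D) D (rt_norm D) (rt_sum D) m hm C hC hCm n (P.image (fr n)) a (by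
      intro v hv i
      obtain ⟨p, hp, rfl⟩ := Finset.mem_image.1 hv
      have := hfrb p hp i
      rw [hD]; push_cast
      omega)
    rw [Fintype.card_fin] at ht
    have h1 : ∀ θ, ∑ v ∈ P.image (fr n), a v * chi (rt D) v θ = g θ := by
      intro θ
      rw [Finset.sum_image hinj, hg]
      exact Finset.sum_congr rfl fun p hp => by rw [ha1 p hp]
    have h2 : ∑ v ∈ P.image (fr n), Wt C v ^ 2 * ‖a v‖ ^ 2 ≤ Wm ^ 2 * S := by
      rw [Finset.sum_image hinj, hS, Finset.mul_sum]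
      refine Finset.sum_le_sum fun p hp => ?_
      rw [ha1 p hp, Complex.norm_natCast]
      refine mul_le_mul_of_nonneg_right ?_ (by positivity)
      refine pow_le_pow_left₀ ?_ (hW p hp) 2
      unfold Wt wt
      refine Finset.prod_nonneg fun i _ => ?_
      split_ifs
      · norm_num
      · positivity
    rw [Finset.sum_congr rfl fun θ _ => by rw [h1 θ]] at ht
    refine ht.trans ?_
    rw [hN]
    refine mul_le_mul_of_nonneg_left ?_ (by positivity)
    refine pow_le_pow_left₀ (Finset.sum_nonneg fun v _ => by positivity) h2 m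
  -- conclusion
  have hj := wjensen (fun θ => ‖f θ‖ ^ 2) (fun θ => ‖g θ‖) (fun θ => by positivity)
    (fun θ => norm_nonneg _) (2 * m) (by omega)
  have hj2 : ∑ θ, ‖f θ‖ ^ 2 * ‖g θ‖ ^ (2 * m) ≤ (A.card : ℝ) ^ 2 * (N ^ n * (Wm ^ 2 * S) ^ m) := by
    calc ∑ θ, ‖f θ‖ ^ 2 * ‖g θ‖ ^ (2 * m) ≤ ∑ θ, (A.card : ℝ) ^ 2 * (‖g θ‖ ^ 2) ^ m := by
          refine Finset.sum_le_sum fun θ _ => ?_
          rw [pow_mul]
          exact mul_le_mul_of_nonneg_right (hfle θ) (by positivity)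
      _ = (A.card : ℝ) ^ 2 * ∑ θ, (‖g θ‖ ^ 2) ^ m := by rw [Finset.mul_sum]
      _ ≤ _ := mul_le_mul_of_nonneg_left hgm (by positivity)
  have h3 : (N ^ n * S) ^ (2 * m) ≤ (N ^ n * (A.card : ℝ)) ^ (2 * m - 1) *
      ((A.card : ℝ) ^ 2 * (N ^ n * (Wm ^ 2 * S) ^ m)) := by
    refine (pow_le_pow_left₀ (by positivity) hup _).trans (hj.trans ?_)
    simp only [hf2]
    exact mul_le_mul_of_nonneg_left hj2 (by positivity)
  have hNn : 0 < (N ^ n) ^ (2 * m) := by positivity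
  have h4 : (N ^ n * (A.card : ℝ)) ^ (2 * m - 1) *
      ((A.card : ℝ) ^ 2 * (N ^ n * (Wm ^ 2 * S) ^ m)) =
      (N ^ n) ^ (2 * m) * ((A.card : ℝ) ^ (2 * m + 1) * (Wm ^ 2) ^ m * S ^ m) := by
    have e1 : (N ^ n) ^ (2 * m) = (N ^ n) ^ (2 * m - 1) * N ^ n := by
      rw [← pow_succ]; congr 1; omega
    have e2 : (A.card : ℝ) ^ (2 * m + 1) = (A.card : ℝ) ^ (2 * m - 1) * (A.card : ℝ) ^ 2 := by
      rw [← pow_add]; congr 1; omega
    rw [e1, e2, mul_pow, mul_pow]
    ring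
  rw [h4, mul_pow] at h3
  have h5 : S ^ (2 * m) ≤ (A.card : ℝ) ^ (2 * m + 1) * (Wm ^ 2) ^ m * S ^ m :=
    le_of_mul_le_mul_left h3 hNn
  rcases eq_or_lt_of_le hS0 with h | h
  · rw [← h, zero_pow (by omega)]
    positivity
  · have h6 : S ^ (2 * m) = S ^ m * S ^ m := by rw [← pow_add]; congr 1; omega
    rw [h6] at h5
    exact le_of_mul_le_mul_right h5 (by positivity)

end Pool.Agent.Y385.SPI
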