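import Pool.Agent.Y385.SPI.Ratio
import Pool.Agent.H510R2.Div

set_option autoImplicit false

/-!
# Ratios of small height

For every finite set `A` of positive integers the number of solutions of `x y = z w` in `A` for
which `x / z` has height at most `H` is at most `K (H |A|) ^ ε |A| ^ 2`.
-/

namespace Pool.Agent.Y385.SPI

open Finset

/-- bound for the weight of one exponent -/
theorem wt_le (s : ℕ) (u v : ℕ) (h : u = 0 ∨ v = 0) :
    wt ((2 : ℝ) ^ s) ((u : ℤ) - (v : ℤ)) ≤ ((u : ℝ) + 1) ^ (s + 1) * ((v : ℝ) + 1) ^ (s + 1) := by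
  have key : ∀ k : ℕ, wt ((2 : ℝ) ^ s) (k : ℤ) ≤ ((k : ℝ) + 1) ^ (s + 1) ∧
      wt ((2 : ℝ) ^ s) (-(k : ℤ)) ≤ ((k : ℝ) + 1) ^ (s + 1) := by
    intro k
    rcases Nat.eq_zero_or_pos k with rfl | hk
    · simp [wt]
    · have hk1 : (1 : ℝ) ≤ k := by exact_mod_cast hk
      have h1 : ((2 : ℝ) ^ s) * k ≤ ((k : ℝ) + 1) ^ (s + 1) := by
        rw [pow_succ]
        exact mul_le_mul (pow_le_pow_left₀ (by norm_num) (by linarith) s) (by linarith)
          (by positivity) (by positivity)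
      have hne : (k : ℤ) ≠ 0 := by exact_mod_cast hk.ne'
      constructor
      · unfold wt
        rw [if_neg hne]
        simpa using h1
      · unfold wt
        rw [if_neg (neg_ne_zero.2 hne)]
        simpa using h1
  rcases h with rfl | rfl
  · simpa using (key v).2
  · simpa using (key u).1

theorem prod_le_divisors (n x : ℕ) (hx : x ≠ 0) :
    ∏ i : Fin n, (x.factorization (Nat.nth Nat.Prime i) + 1) ≤ x.divisors.card := by
  classical
  rw [Nat.card_divisors hx]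
  have hinj : Function.Injective fun i : Fin n => Nat.nth Nat.Prime i := by
    intro i j h
    exact Fin.ext (Nat.nth_injective Nat.infinite_setOfPred_prime h)
  rw [← Finset.prod_image (s := Finset.univ) (g := fun i : Fin n => Nat.nth Nat.Prime i)
    (f := fun p => x.factorization p + 1) (fun i _ j _ h => hinj h)]
  set T := Finset.univ.image fun i : Fin n => Nat.nth Nat.Prime i with hT
  calc ∏ p ∈ T, (x.factorization p + 1) ≤ ∏ p ∈ T ∪ x.primeFactors, (x.factorization p + 1) :=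
        Finset.prod_le_prod_of_subset_of_one_le' Finset.subset_union_left fun p _ _ => by omega
    _ = ∏ p ∈ x.primeFactors, (x.factorization p + 1) := by
        symm
        refine Finset.prod_subset Finset.subset_union_right fun p _ hp => ?_
        have : x.factorization p = 0 := by
          rw [← Nat.support_factorization] at hp
          exact Finsupp.notMem_support_iff.1 hp
        rw [this, zero_add]

theorem Wt_le (s n : ℕ) (p : ℕ × ℕ) (h1 : p.1 ≠ 0) (h2 : p.2 ≠ 0) (hc : Nat.Coprime p.1 p.2) :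
    Wt ((2 : ℝ) ^ s) (fr n p) ≤ ((p.1.divisors.card : ℝ) * p.2.divisors.card) ^ (s + 1) := by
  unfold Wt
  have h3 : ∀ i : Fin n, wt ((2 : ℝ) ^ s) (fr n p i) ≤
      (((p.2.factorization (Nat.nth Nat.Prime i) + 1 : ℕ) : ℝ) *
        ((p.1.factorization (Nat.nth Nat.Prime i) + 1 : ℕ) : ℝ)) ^ (s + 1) := by
    intro i
    have := wt_le s (p.2.factorization (Nat.nth Nat.Prime i)) (p.1.factorization (Nat.nth Nat.Prime i))
      (by
        by_contra hcon
        push Not at hcon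
        have e1 : Nat.nth Nat.Prime i ∣ p.2 := Nat.dvd_of_factorization_pos hcon.1
        have e2 : Nat.nth Nat.Prime i ∣ p.1 := Nat.dvd_of_factorization_pos hcon.2
        have e3 := Nat.nth_mem_of_infinite Nat.infinite_setOfPred_prime (i : ℕ)
        exact Nat.Prime.not_coprime_iff_dvd.2 ⟨_, e3, e2, e1⟩ hc)
    rw [mul_pow]
    push_cast
    exact this
  have h0 : ∀ i : Fin n, 0 ≤ wt ((2 : ℝ) ^ s) (fr n p i) := by
    intro i
    unfold wt
    split_ifs
    · norm_num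
    · positivity
  calc ∏ i, wt ((2 : ℝ) ^ s) (fr n p i) ≤ ∏ i : Fin n,
      (((p.2.factorization (Nat.nth Nat.Prime i) + 1 : ℕ) : ℝ) *
        ((p.1.factorization (Nat.nth Nat.Prime i) + 1 : ℕ) : ℝ)) ^ (s + 1) :=
        Finset.prod_le_prod (fun i _ => h0 i) fun i _ => h3 i
    _ = (((∏ i : Fin n, (p.2.factorization (Nat.nth Nat.Prime i) + 1) : ℕ) : ℝ) *
        ((∏ i : Fin n, (p.1.factorization (Nat.nth Nat.Prime i) + 1) : ℕ) : ℝ)) ^ (s + 1) := by
        rw [Finset.prod_pow, Finset.prod_mul_distrib]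
        push_cast
        rfl
    _ ≤ ((p.2.divisors.card : ℝ) * p.1.divisors.card) ^ (s + 1) := by
        refine pow_le_pow_left₀ (by positivity) ?_ _
        refine mul_le_mul ?_ ?_ (by positivity) (by positivity)
        · exact_mod_cast prod_le_divisors n p.2 h2
        · exact_mod_cast prod_le_divisors n p.1 h1
    _ = _ := by rw [mul_comm]

/-- reduced fractions of height at most `H` -/
def PH (H : ℕ) : Finset (ℕ × ℕ) :=
  ((Finset.Icc 1 H) ×ˢ (Finset.Icc 1 H)).filter fun p => Nat.Coprime p.1 p.2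

theorem rep_bound (ε : ℝ) (hε : 0 < ε) : ∃ K : ℝ, 0 < K ∧ ∀ H : ℕ, 1 ≤ H → ∀ A : Finset ℕ,
    (∀ x ∈ A, x ≠ 0) → A.Nonempty →
    ∑ p ∈ PH H, (rep A p : ℝ) ^ 2 ≤ K * ((H : ℝ) * A.card) ^ ε * (A.card : ℝ) ^ 2 := by
  obtain ⟨m0, hm0⟩ := exists_nat_ge (1 / ε)
  set m : ℕ := m0 + 1 with hm
  have hm1 : 1 ≤ m := by omega
  have hmε : 1 / (m : ℝ) ≤ ε := by
    rw [div_le_iff₀ (by positivity)]
    rw [div_le_iff₀ hε] at hm0
    have : (m : ℝ) = m0 + 1 := by rw [hm]; push_cast; ring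
    rw [this]
    nlinarith
  set s : ℕ := 2 * m + 2 with hs
  set C : ℝ := (2 : ℝ) ^ s with hC
  have hC2 : 2 ≤ C := by
    rw [hC]
    calc (2 : ℝ) = 2 ^ 1 := by norm_num
      _ ≤ 2 ^ s := pow_le_pow_right₀ (by norm_num) (by omega)
  have hCm : 4 * (m * (2 * m - 1) * 2 ^ (m - 1)) ≤ C ^ 2 := by
    have h1 : (m : ℝ) ≤ 2 ^ m := by exact_mod_cast (Nat.lt_two_pow_self (n := m)).le
    have hm1' : (1 : ℝ) ≤ m := by exact_mod_cast hm1
    have h2 : (m : ℝ) * (2 * m - 1) ≤ 2 * (2 ^ m * 2 ^ m) := by nlinarith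
    have h3 : (2 : ℝ) ^ (m - 1) ≤ 2 ^ m := pow_le_pow_right₀ (by norm_num) (by omega)
    have h4 : (m : ℝ) * (2 * m - 1) * 2 ^ (m - 1) ≤ 2 * (2 ^ m * 2 ^ m) * 2 ^ m :=
      mul_le_mul h2 h3 (by positivity) (by positivity)
    have h5 : C ^ 2 = 16 * (2 ^ m * 2 ^ m) * (2 ^ m * 2 ^ m) := by
      rw [hC, hs, pow_add, mul_pow, ← pow_mul, ← pow_mul]
      have : (2 : ℝ) ^ (2 * m * 2) = (2 ^ m * 2 ^ m) * (2 ^ m * 2 ^ m) := by
        rw [← pow_add, ← pow_add]; congr 1; ring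
      rw [this]; norm_num; ring
    rw [h5]
    have h6 : (1 : ℝ) ≤ 2 ^ m := one_le_pow₀ (by norm_num)
    have h7 : 0 < (2 : ℝ) ^ m * 2 ^ m * 2 ^ m := by positivity
    nlinarith
  set η : ℝ := ε / (4 * (s + 1)) with hη
  have hη0 : 0 < η := by positivity
  obtain ⟨K1, hK1, hdiv⟩ := Pool.Agent.H510R2.divisor_bound η hη0
  refine ⟨K1 ^ (4 * (s + 1)), by positivity, ?_⟩
  intro H hH A hA hAne
  have hH1 : (1 : ℝ) ≤ H := by exact_mod_cast hH
  have hA1 : (1 : ℝ) ≤ A.card := by exact_mod_cast hAne.card_pos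
  set n : ℕ := (A.sup id + 1) * (H + 1) + (H + 1) * (H + 1) + 1 with hn
  have hP : ∀ p ∈ PH H, (1 ≤ p.1 ∧ p.1 ≤ H) ∧ (1 ≤ p.2 ∧ p.2 ≤ H) ∧ Nat.Coprime p.1 p.2 := by
    intro p hp
    unfold PH at hp
    rw [Finset.mem_filter, Finset.mem_product, Finset.mem_Icc, Finset.mem_Icc] at hp
    exact ⟨hp.1.1, hp.1.2, hp.2⟩
  have hbig : ∀ x ∈ A, ∀ k, k ≤ H → x * k < n := by
    intro x hx k hk
    have h1 : x ≤ A.sup id := Finset.le_sup (f := id) hx
    have h2 : x * k ≤ (A.sup id + 1) * (H + 1) := Nat.mul_le_mul (by omega) (by omega)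
    omega
  have hbig2 : ∀ j k, j ≤ H → k ≤ H → j * k < n := by
    intro j k hj hk
    have h2 : j * k ≤ (H + 1) * (H + 1) := Nat.mul_le_mul (by omega) (by omega)
    omega
  have hbig3 : ∀ k, k ≤ H → k < n := by
    intro k hk
    have := hbig2 k 1 hk hH
    omega
  set Wm : ℝ := (K1 * (H : ℝ) ^ η * (K1 * (H : ℝ) ^ η)) ^ (s + 1) with hWm
  have hW : ∀ p ∈ PH H, Wt C (fr n p) ≤ Wm := by
    intro p hp
    have hp' := hP p hp
    refine (Wt_le s n p (by omega) (by omega) hp'.2.2).trans ?_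
    refine pow_le_pow_left₀ (by positivity) ?_ _
    have e1 : (p.1.divisors.card : ℝ) ≤ K1 * (H : ℝ) ^ η :=
      (hdiv p.1 hp'.1.1).trans (mul_le_mul_of_nonneg_left
        (Real.rpow_le_rpow (by positivity) (by exact_mod_cast hp'.1.2) hη0.le) hK1.le)
    have e2 : (p.2.divisors.card : ℝ) ≤ K1 * (H : ℝ) ^ η :=
      (hdiv p.2 hp'.2.1.1).trans (mul_le_mul_of_nonneg_left
        (Real.rpow_le_rpow (by positivity) (by exact_mod_cast hp'.2.1.2) hη0.le) hK1.le)
    exact mul_le_mul e1 e2 (by positivity) (by positivity)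
  have hcore := core m hm1 C hC2 hCm A hA (PH H) (fun p hp => by
      have := hP p hp
      exact ⟨by omega, by omega, this.2.2⟩) n
    (fun x hx p hp => by
      have := hP p hp
      exact ⟨hbig x hx _ this.1.2, hbig x hx _ this.2.1.2, hbig2 _ _ this.1.2 this.2.1.2,
        hbig3 _ this.1.2, hbig3 _ this.2.1.2⟩)
    (fun p hp q hq => hbig2 _ _ (hP p hp).1.2 (hP q hq).2.1.2) Wm hW
  set S : ℝ := ∑ p ∈ PH H, (rep A p : ℝ) ^ 2 with hS
  have hS0 : 0 ≤ S := Finset.sum_nonneg fun p _ => by positivity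
  have hmpos : (0 : ℝ) < m := by positivity
  have hA0 : (0 : ℝ) < A.card := by linarith
  have e1 : (A.card : ℝ) ^ (2 * m + 1) = ((A.card : ℝ) ^ (2 + 1 / (m : ℝ))) ^ m := by
    rw [← Real.rpow_natCast ((A.card : ℝ) ^ (2 + 1 / (m : ℝ))), ← Real.rpow_mul hA0.le,
      ← Real.rpow_natCast]
    congr 1
    push_cast
    field_simp
  rw [e1, ← mul_pow] at hcore
  have h1 : S ≤ (A.card : ℝ) ^ (2 + 1 / (m : ℝ)) * Wm ^ 2 :=
    (pow_le_pow_iff_left₀ hS0 (by positivity) (by omega)).1 hcore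
  have h2 : Wm ^ 2 = K1 ^ (4 * (s + 1)) * (H : ℝ) ^ ε := by
    have e2 : Wm ^ 2 = K1 ^ (4 * (s + 1)) * ((H : ℝ) ^ η) ^ (4 * (s + 1)) := by
      rw [hWm, ← pow_mul, mul_pow, mul_pow]
      ring
    rw [e2, ← Real.rpow_natCast ((H : ℝ) ^ η), ← Real.rpow_mul (by positivity)]
    congr 2
    rw [hη]
    push_cast
    field_simp
  have h3 : (A.card : ℝ) ^ (2 + 1 / (m : ℝ)) ≤ (A.card : ℝ) ^ ε * (A.card : ℝ) ^ 2 := by
    rw [← Real.rpow_natCast (A.card : ℝ) 2, ← Real.rpow_add hA0]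
    refine Real.rpow_le_rpow_of_exponent_le hA1 ?_
    push_cast
    linarith
  calc S ≤ (A.card : ℝ) ^ (2 + 1 / (m : ℝ)) * Wm ^ 2 := h1
    _ ≤ ((A.card : ℝ) ^ ε * (A.card : ℝ) ^ 2) * Wm ^ 2 :=
        mul_le_mul_of_nonneg_right h3 (by positivity)
    _ = K1 ^ (4 * (s + 1)) * ((H : ℝ) * A.card) ^ ε * (A.card : ℝ) ^ 2 := by
        rw [h2, Real.mul_rpow (by positivity) (by positivity)]
        ring

/-- The solutions `(x, z, y, w)` of `x y = z w` in `A` for which `x / z` has height at most `H`. -/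
def small (A : Finset ℕ) (H : ℕ) : Finset ((ℕ × ℕ) × (ℕ × ℕ)) :=
  ((A ×ˢ A) ×ˢ (A ×ˢ A)).filter fun q => q.1.1 * q.2.1 = q.1.2 * q.2.2 ∧
    max q.1.1 q.1.2 ≤ H * Nat.gcd q.1.1 q.1.2

theorem small_le (A : Finset ℕ) (hA : ∀ x ∈ A, x ≠ 0) (H : ℕ) :
    (small A H).card ≤ ∑ p ∈ PH H, rep A p ^ 2 := by
  classical
  have hsub : small A H ⊆ (PH H).biUnion fun p =>
      ((A ×ˢ A).filter fun q => p.2 * q.1 = p.1 * q.2) ×ˢ
      (((A ×ˢ A).filter fun q => p.2 * q.1 = p.1 * q.2).image Prod.swap) := by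
    intro q hq
    unfold small at hq
    rw [Finset.mem_filter, Finset.mem_product, Finset.mem_product, Finset.mem_product] at hq
    obtain ⟨⟨⟨hx, hz⟩, ⟨hy, hw⟩⟩, heq, hmax⟩ := hq
    have hx0 := hA _ hx
    have hz0 := hA _ hz
    set g := Nat.gcd q.1.1 q.1.2 with hg
    have hg0 : 0 < g := Nat.gcd_pos_of_pos_left _ (Nat.pos_of_ne_zero hx0)
    obtain ⟨b, hb⟩ := Nat.gcd_dvd_left q.1.1 q.1.2
    obtain ⟨c, hc⟩ := Nat.gcd_dvd_right q.1.1 q.1.2
    rw [← hg] at hb hc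
    have hcop : Nat.Coprime b c := by
      have := Nat.coprime_div_gcd_div_gcd (m := q.1.1) (n := q.1.2) hg0
      rw [← hg] at this
      have e1 : q.1.1 / g = b := by rw [hb]; exact Nat.mul_div_cancel_left b hg0
      have e2 : q.1.2 / g = c := by rw [hc]; exact Nat.mul_div_cancel_left c hg0
      rwa [e1, e2] at this
    have hb0 : 1 ≤ b := by
      rcases Nat.eq_zero_or_pos b with h | h
      · rw [h, mul_zero] at hb; exact absurd hb hx0
      · exact h
    have hc0 : 1 ≤ c := by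
      rcases Nat.eq_zero_or_pos c with h | h
      · rw [h, mul_zero] at hc; exact absurd hc hz0
      · exact h
    have hbH : b ≤ H := by
      have h1 : q.1.1 ≤ H * g := (le_max_left _ _).trans hmax
      rw [hb, mul_comm] at h1
      exact Nat.le_of_mul_le_mul_right h1 hg0
    have hcH : c ≤ H := by
      have h1 : q.1.2 ≤ H * g := (le_max_right _ _).trans hmax
      rw [hc, mul_comm] at h1
      exact Nat.le_of_mul_le_mul_right h1 hg0
    rw [Finset.mem_biUnion]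
    refine ⟨(b, c), ?_, ?_⟩
    · unfold PH
      rw [Finset.mem_filter, Finset.mem_product, Finset.mem_Icc, Finset.mem_Icc]
      exact ⟨⟨⟨hb0, hbH⟩, ⟨hc0, hcH⟩⟩, hcop⟩
    · rw [Finset.mem_product]
      refine ⟨?_, ?_⟩
      · rw [Finset.mem_filter, Finset.mem_product]
        refine ⟨⟨hx, hz⟩, ?_⟩
        simp only
        rw [hb, hc]; ring
      · rw [Finset.mem_image]
        refine ⟨(q.2.2, q.2.1), ?_, rfl⟩
        rw [Finset.mem_filter, Finset.mem_product]
        refine ⟨⟨hw, hy⟩, ?_⟩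
        simp only
        have h1 : g * (b * q.2.1) = g * (c * q.2.2) := by
          rw [← mul_assoc, ← mul_assoc, ← hb, ← hc]; exact heq
        exact (Nat.eq_of_mul_eq_mul_left hg0 h1).symm
  refine (Finset.card_le_card hsub).trans (Finset.card_biUnion_le.trans ?_)
  refine Finset.sum_le_sum fun p _ => ?_
  rw [Finset.card_product, Finset.card_image_of_injective _ Prod.swap_injective]
  unfold rep
  rw [sq]

/-- **Ratios of small height contribute little to the multiplicative energy.** -/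
theorem small_bound (ε : ℝ) (hε : 0 < ε) : ∃ K : ℝ, 0 < K ∧ ∀ H : ℕ, 1 ≤ H → ∀ A : Finset ℕ,
    (∀ x ∈ A, x ≠ 0) →
    ((small A H).card : ℝ) ≤ K * ((H : ℝ) * A.card) ^ ε * (A.card : ℝ) ^ 2 := by
  obtain ⟨K, hK, h⟩ := rep_bound ε hε
  refine ⟨K, hK, fun H hH A hA => ?_⟩
  rcases A.eq_empty_or_nonempty with rfl | hne
  · simp [small]
  · refine le_trans ?_ (h H hH A hA hne)
    exact_mod_cast small_le A hA H

end Pool.Agent.Y385.SPI
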