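import Pool.Agent.Y385.SPI.One

set_option autoImplicit false

/-!
# Tensorisation

The `2m`-th moment of a trigonometric polynomial in many independent variables is bounded by the
`m`-th power of a weighted sum of the squares of its coefficients; the weight of a frequency is the
product over its nonzero coordinates `e` of `C |e|`.
-/

namespace Pool.Agent.Y385.SPI

open Finset

/-- sum of inverse squares -/
theorem sum_inv_sq_nat (D : ℕ) : ∑ i ∈ Finset.Icc 1 D, (1 : ℝ) / (i : ℝ) ^ 2 ≤ 2 := by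
  have h : ∀ D : ℕ, 1 ≤ D → ∑ i ∈ Finset.Icc 1 D, (1 : ℝ) / (i : ℝ) ^ 2 ≤ 2 - 1 / D := by
    intro D hD
    induction D, hD using Nat.le_induction with
    | base => norm_num
    | succ n hn ih =>
      rw [Finset.sum_Icc_succ_top (by omega)]
      have hn0 : (0 : ℝ) < n := by exact_mod_cast hn
      have : (1 : ℝ) / ((n + 1 : ℕ) : ℝ) ^ 2 ≤ 1 / n - 1 / ((n + 1 : ℕ) : ℝ) := by
        push_cast
        rw [div_sub_div _ _ (by positivity) (by positivity), div_le_div_iff₀ (by positivity) (by positivity)]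
        nlinarith
      linarith
  rcases Nat.eq_zero_or_pos D with rfl | hD
  · norm_num
  · have := h D hD
    have h2 : (0 : ℝ) ≤ 1 / D := by positivity
    linarith

/-- sum of inverse squares of nonzero integers -/
theorem sum_inv_sq_int (D : ℕ) (E : Finset ℤ) (h0 : ∀ e ∈ E, e ≠ 0) (hD : ∀ e ∈ E, |e| ≤ D) :
    ∑ e ∈ E, (1 : ℝ) / (e : ℝ) ^ 2 ≤ 4 := by
  have hsub : E ⊆ (Finset.Icc 1 D).image (fun i : ℕ => (i : ℤ)) ∪
      (Finset.Icc 1 D).image (fun i : ℕ => -(i : ℤ)) := by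
    intro e he
    have h1 := h0 e he
    have h2 := hD e he
    rw [Int.abs_eq_natAbs] at h2
    rw [Finset.mem_union, Finset.mem_image, Finset.mem_image]
    rcases lt_or_gt_of_ne h1 with h | h
    · right
      refine ⟨e.natAbs, Finset.mem_Icc.2 ⟨by omega, by omega⟩, by omega⟩
    · left
      refine ⟨e.natAbs, Finset.mem_Icc.2 ⟨by omega, by omega⟩, by omega⟩
  have hnn : ∀ e : ℤ, 0 ≤ (1 : ℝ) / (e : ℝ) ^ 2 := fun e => by positivity
  calc ∑ e ∈ E, (1 : ℝ) / (e : ℝ) ^ 2 ≤ ∑ e ∈ (Finset.Icc 1 D).image (fun i : ℕ => (i : ℤ)) ∪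
      (Finset.Icc 1 D).image (fun i : ℕ => -(i : ℤ)), (1 : ℝ) / (e : ℝ) ^ 2 :=
        Finset.sum_le_sum_of_subset_of_nonneg hsub fun e _ _ => hnn e
    _ ≤ ∑ e ∈ (Finset.Icc 1 D).image (fun i : ℕ => (i : ℤ)), (1 : ℝ) / (e : ℝ) ^ 2 +
      ∑ e ∈ (Finset.Icc 1 D).image (fun i : ℕ => -(i : ℤ)), (1 : ℝ) / (e : ℝ) ^ 2 := by
        have := Finset.sum_union_inter (s₁ := (Finset.Icc 1 D).image (fun i : ℕ => (i : ℤ)))
          (s₂ := (Finset.Icc 1 D).image (fun i : ℕ => -(i : ℤ))) (f := fun e : ℤ => (1 : ℝ) / (e : ℝ) ^ 2)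
        rw [← this]
        have h3 : 0 ≤ ∑ e ∈ (Finset.Icc 1 D).image (fun i : ℕ => (i : ℤ)) ∩
          (Finset.Icc 1 D).image (fun i : ℕ => -(i : ℤ)), (1 : ℝ) / (e : ℝ) ^ 2 :=
          Finset.sum_nonneg fun e _ => hnn e
        linarith
    _ = ∑ i ∈ Finset.Icc 1 D, (1 : ℝ) / (i : ℝ) ^ 2 + ∑ i ∈ Finset.Icc 1 D, (1 : ℝ) / (i : ℝ) ^ 2 := by
        congr 1
        · rw [Finset.sum_image (by intro a _ b _ h; simpa using h)]
          simp
        · rw [Finset.sum_image (by intro a _ b _ h; simpa using h)]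
          simp
    _ ≤ 4 := by linarith [sum_inv_sq_nat D]

/-- Minkowski's inequality for `m`-th powers, in the form used below. -/
theorem mink {ι Θ : Type*} [Fintype Θ] (E : Finset ι) (c U : ι → ℝ) (F : ι → Θ → ℝ) (N : ℝ)
    (m : ℕ) (hm : 1 ≤ m) (hc : ∀ e, 0 ≤ c e) (hU : ∀ e, 0 ≤ U e)
    (hF : ∀ e θ, 0 ≤ F e θ) (h : ∀ e ∈ E, ∑ θ, F e θ ^ m ≤ N * U e ^ m) :
    ∑ θ, (∑ e ∈ E, c e * F e θ) ^ m ≤ N * (∑ e ∈ E, c e * U e) ^ m := by
  have hm0 : m ≠ 0 := by omega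
  have hzero : ∀ e ∈ E, U e = 0 → ∀ θ, F e θ = 0 := by
    intro e he hUe θ
    have h1 := h e he
    rw [hUe, zero_pow hm0, mul_zero] at h1
    have h2 : F e θ ^ m ≤ ∑ θ, F e θ ^ m :=
      Finset.single_le_sum (f := fun θ => F e θ ^ m) (fun θ _ => pow_nonneg (hF e θ) m)
        (Finset.mem_univ θ)
    have h3 : F e θ ^ m = 0 := le_antisymm (h2.trans h1) (pow_nonneg (hF e θ) m)
    exact pow_eq_zero_iff hm0 |>.1 h3
  set S : ℝ := ∑ e ∈ E, c e * U e with hS
  have hS0 : 0 ≤ S := Finset.sum_nonneg fun e _ => mul_nonneg (hc e) (hU e)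
  rcases eq_or_lt_of_le hS0 with hS1 | hS1
  · have hz : ∀ e ∈ E, c e * U e = 0 :=
      (Finset.sum_eq_zero_iff_of_nonneg fun e _ => mul_nonneg (hc e) (hU e)).1 hS1.symm
    have hz2 : ∀ θ, ∑ e ∈ E, c e * F e θ = 0 := by
      intro θ
      refine Finset.sum_eq_zero fun e he => ?_
      rcases mul_eq_zero.1 (hz e he) with h1 | h1
      · rw [h1, zero_mul]
      · rw [hzero e he h1 θ, mul_zero]
    rw [Finset.sum_congr rfl fun θ _ => by rw [hz2 θ]]
    rw [← hS1, zero_pow hm0]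
    simp
  · have hp : ∑ e ∈ E, c e * U e / S = 1 := by
      rw [← Finset.sum_div]; exact div_self hS1.ne'
    have hpt : ∀ θ, (∑ e ∈ E, c e * F e θ) ^ m ≤
        S ^ m * ∑ e ∈ E, c e * U e / S * (F e θ / U e) ^ m := by
      intro θ
      have e1 : ∑ e ∈ E, c e * F e θ = S * ∑ e ∈ E, c e * U e / S * (F e θ / U e) := by
        rw [Finset.mul_sum]
        refine Finset.sum_congr rfl fun e he => ?_
        rcases eq_or_lt_of_le (hU e) with h1 | h1
        · rw [hzero e he h1.symm θ]; simp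
        · field_simp
      rw [e1, mul_pow]
      refine mul_le_mul_of_nonneg_left ?_ (pow_nonneg hS0 m)
      exact Real.pow_arith_mean_le_arith_mean_pow E (fun e => c e * U e / S) (fun e => F e θ / U e)
        (fun e _ => div_nonneg (mul_nonneg (hc e) (hU e)) hS0) hp
        (fun e _ => div_nonneg (hF e θ) (hU e)) m
    calc ∑ θ, (∑ e ∈ E, c e * F e θ) ^ m
        ≤ ∑ θ, S ^ m * ∑ e ∈ E, c e * U e / S * (F e θ / U e) ^ m :=
          Finset.sum_le_sum fun θ _ => hpt θ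
      _ = S ^ m * ∑ e ∈ E, c e * U e / S * ∑ θ, (F e θ / U e) ^ m := by
          rw [← Finset.mul_sum, Finset.sum_comm]
          congr 1
          exact Finset.sum_congr rfl fun e _ => by rw [Finset.mul_sum]
      _ ≤ S ^ m * ∑ e ∈ E, c e * U e / S * N := by
          refine mul_le_mul_of_nonneg_left (Finset.sum_le_sum fun e he => ?_) (pow_nonneg hS0 m)
          rcases eq_or_lt_of_le (hU e) with h1 | h1
          · rw [← h1]; simp
          · refine mul_le_mul_of_nonneg_left ?_ (div_nonneg (mul_nonneg (hc e) (hU e)) hS0)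
            have : ∑ θ, (F e θ / U e) ^ m = (∑ θ, F e θ ^ m) / U e ^ m := by
              rw [Finset.sum_div]
              exact Finset.sum_congr rfl fun θ _ => by rw [div_pow]
            rw [this, div_le_iff₀ (pow_pos h1 m)]
            exact h e he
      _ = N * S ^ m := by
          rw [← Finset.sum_mul, hp]; ring

/-- the character with frequency `v` -/
noncomputable def chi {Ω : Type} (z : Ω → ℂ) {n : ℕ} (v : Fin n → ℤ) (θ : Fin n → Ω) : ℂ :=
  ∏ i, z (θ i) ^ v i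

/-- the weight of an exponent -/
noncomputable def wt (C : ℝ) (e : ℤ) : ℝ := if e = 0 then 1 else C * |(e : ℝ)|

/-- the weight of a frequency -/
noncomputable def Wt (C : ℝ) {n : ℕ} (v : Fin n → ℤ) : ℝ := ∏ i, wt C (v i)

theorem chi_cons {Ω : Type} (z : Ω → ℂ) {n : ℕ} (v : Fin (n + 1) → ℤ) (k : Ω) (θ : Fin n → Ω) :
    chi z v (Fin.cons k θ) = z k ^ v 0 * chi z (Fin.tail v) θ := by
  unfold chi
  rw [Fin.prod_univ_succ]
  simp [Fin.tail]

theorem Wt_succ (C : ℝ) {n : ℕ} (v : Fin (n + 1) → ℤ) :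
    Wt C v = wt C (v 0) * Wt C (Fin.tail v) := by
  unfold Wt
  rw [Fin.prod_univ_succ]
  simp [Fin.tail]

theorem sum_cons {Ω : Type} [Fintype Ω] {n : ℕ} (F : (Fin (n + 1) → Ω) → ℝ) :
    ∑ θ, F θ = ∑ θ : Fin n → Ω, ∑ k : Ω, F (Fin.cons k θ) := by
  rw [Finset.sum_comm]
  rw [← Finset.sum_product']
  simp only [Finset.univ_product_univ]
  exact (Fintype.sum_equiv (Fin.consEquiv fun _ => Ω) (fun p : Ω × (Fin n → Ω) => F (Fin.cons p.1 p.2))
    F (fun p => rfl)).symm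

theorem tens {Ω : Type} [Fintype Ω] [Nonempty Ω] (z : Ω → ℂ) (D : ℕ) (hz1 : ∀ k, ‖z k‖ = 1)
    (hz : ∀ e : ℤ, e ≠ 0 → |e| ≤ D → ∑ k, z k ^ e = 0) (m : ℕ) (hm : 1 ≤ m) (C : ℝ) (hC : 2 ≤ C)
    (hCm : 4 * (m * (2 * m - 1) * 2 ^ (m - 1)) ≤ C ^ 2) :
    ∀ (n : ℕ) (Γ : Finset (Fin n → ℤ)) (a : (Fin n → ℤ) → ℂ), (∀ v ∈ Γ, ∀ i, |v i| ≤ D) →
      ∑ θ : Fin n → Ω, (‖∑ v ∈ Γ, a v * chi z v θ‖ ^ 2) ^ m ≤
        (Fintype.card Ω : ℝ) ^ n * (∑ v ∈ Γ, Wt C v ^ 2 * ‖a v‖ ^ 2) ^ m := by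
  intro n
  induction n with
  | zero =>
    intro Γ a _
    have hm0 : m ≠ 0 := by omega
    rcases Γ.eq_empty_or_nonempty with rfl | ⟨v, hv⟩
    · simp [zero_pow hm0]
    · have hΓ : Γ = {v} := Finset.eq_singleton_iff_unique_mem.2 ⟨hv, fun w _ => Subsingleton.elim _ _⟩
      rw [hΓ]
      simp [chi, Wt]
  | succ n ih =>
    intro Γ a hΓ
    have hC0 : 0 < C := by linarith
    set E : Finset ℤ := insert 0 (Γ.image fun v => v 0) with hE
    have hmaps : ∀ v ∈ Γ, v 0 ∈ E := fun v hv =>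
      Finset.mem_insert_of_mem (Finset.mem_image_of_mem _ hv)
    have hED : ∀ e ∈ E, |e| ≤ D := by
      intro e he
      rcases Finset.mem_insert.1 he with rfl | he
      · simp
      · obtain ⟨v, hv, rfl⟩ := Finset.mem_image.1 he
        exact hΓ v hv 0
    set f : ℤ → (Fin n → Ω) → ℂ := fun e θ =>
      ∑ v ∈ Γ.filter (fun v => v 0 = e), a v * chi z (Fin.tail v) θ with hf
    set U : ℤ → ℝ := fun e =>
      ∑ v ∈ Γ.filter (fun v => v 0 = e), Wt C (Fin.tail v) ^ 2 * ‖a v‖ ^ 2 with hU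
    have hdec : ∀ k θ, ∑ v ∈ Γ, a v * chi z v (Fin.cons k θ) = ∑ e ∈ E, z k ^ e * f e θ := by
      intro k θ
      rw [← Finset.sum_fiberwise_of_maps_to hmaps]
      refine Finset.sum_congr rfl fun e _ => ?_
      rw [hf, Finset.mul_sum]
      refine Finset.sum_congr rfl fun v hv => ?_
      rw [Finset.mem_filter] at hv
      rw [chi_cons, hv.2]; ring
    have hIH : ∀ e, ∑ θ, (‖f e θ‖ ^ 2) ^ m ≤ (Fintype.card Ω : ℝ) ^ n * U e ^ m := by
      intro e
      have hinj : Set.InjOn (Fin.tail : (Fin (n + 1) → ℤ) → (Fin n → ℤ))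
          (Γ.filter (fun v => v 0 = e) : Finset (Fin (n + 1) → ℤ)) := by
        intro v hv w hw hvw
        have hv' := (Finset.mem_filter.1 (Finset.mem_coe.1 hv)).2
        have hw' := (Finset.mem_filter.1 (Finset.mem_coe.1 hw)).2
        rw [← Fin.cons_self_tail v, ← Fin.cons_self_tail w, hvw, hv', hw']
      have h1 := ih ((Γ.filter (fun v => v 0 = e)).image Fin.tail) (fun u => a (Fin.cons e u)) (by
        intro u hu i
        obtain ⟨v, hv, rfl⟩ := Finset.mem_image.1 hu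
        exact hΓ v (Finset.mem_filter.1 hv).1 _)
      have hcons : ∀ v ∈ Γ.filter (fun v => v 0 = e), a (Fin.cons e (Fin.tail v)) = a v := by
        intro v hv
        have := (Finset.mem_filter.1 hv).2
        rw [← this, Fin.cons_self_tail]
      have h2 : ∀ θ, ∑ u ∈ (Γ.filter (fun v => v 0 = e)).image Fin.tail,
          a (Fin.cons e u) * chi z u θ = f e θ := by
        intro θ
        rw [Finset.sum_image hinj, hf]
        exact Finset.sum_congr rfl fun v hv => by rw [hcons v hv]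
      have h3 : ∑ u ∈ (Γ.filter (fun v => v 0 = e)).image Fin.tail,
          Wt C u ^ 2 * ‖a (Fin.cons e u)‖ ^ 2 = U e := by
        rw [Finset.sum_image hinj, hU]
        exact Finset.sum_congr rfl fun v hv => by rw [hcons v hv]
      rw [h3] at h1
      refine le_trans (le_of_eq ?_) h1
      exact Finset.sum_congr rfl fun θ _ => by rw [h2 θ]
    have hone : ∀ θ, ∑ k, (‖∑ e ∈ E, z k ^ e * f e θ‖ ^ 2) ^ m ≤
        (Fintype.card Ω : ℝ) * (∑ e ∈ E, wt C e ^ 2 * ‖f e θ‖ ^ 2) ^ m := by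
      intro θ
      have h0E : (0 : ℤ) ∈ E := Finset.mem_insert_self _ _
      set G2 : ℝ := ∑ e ∈ E.erase 0, wt C e ^ 2 * ‖f e θ‖ ^ 2 with hG2
      have hG20 : 0 ≤ G2 := Finset.sum_nonneg fun e _ => by positivity
      have hsplit : ∑ e ∈ E, wt C e ^ 2 * ‖f e θ‖ ^ 2 = ‖f 0 θ‖ ^ 2 + (Real.sqrt G2) ^ 2 := by
        rw [← Finset.add_sum_erase E _ h0E, Real.sq_sqrt hG20]
        simp [wt, hG2]
      have hsplit2 : ∀ k, ∑ e ∈ E, z k ^ e * f e θ = f 0 θ + ∑ e ∈ E.erase 0, z k ^ e * f e θ := by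
        intro k
        rw [← Finset.add_sum_erase E _ h0E]
        simp
      rw [hsplit, Finset.sum_congr rfl fun k _ => by rw [hsplit2 k]]
      refine one_var m hm (2 / C) (Real.sqrt G2) (Real.sqrt_nonneg _) ?_ ?_ (f 0 θ)
        (fun k => ∑ e ∈ E.erase 0, z k ^ e * f e θ) ?_ ?_
      · rw [div_le_one hC0]; exact hC
      · rw [div_pow, mul_div_assoc', div_le_one (by positivity)]
        linarith
      · rw [Finset.sum_comm]
        refine Finset.sum_eq_zero fun e he => ?_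
        rw [← Finset.sum_mul, hz e (Finset.mem_erase.1 he).1 (hED e (Finset.mem_erase.1 he).2),
          zero_mul]
      · intro k
        have hn1 : ‖∑ e ∈ E.erase 0, z k ^ e * f e θ‖ ≤ ∑ e ∈ E.erase 0, ‖f e θ‖ := by
          refine (norm_sum_le _ _).trans (le_of_eq ?_)
          refine Finset.sum_congr rfl fun e _ => ?_
          rw [norm_mul, norm_zpow, hz1 k, one_zpow, one_mul]
        refine hn1.trans ?_
        have hnn : 0 ≤ ∑ e ∈ E.erase 0, ‖f e θ‖ := Finset.sum_nonneg fun e _ => norm_nonneg _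
        refine abs_le_of_sq_le_sq' ?_ (by positivity) |>.2
        rw [mul_pow, Real.sq_sqrt hG20]
        have hne : ∀ e ∈ E.erase 0, (e : ℝ) ≠ 0 := fun e he => by
          exact_mod_cast (Finset.mem_erase.1 he).1
        have hwt : ∀ e ∈ E.erase 0, wt C e = C * |(e : ℝ)| := fun e he => by
          unfold wt; rw [if_neg (Finset.mem_erase.1 he).1]
        have cs := Finset.sum_mul_sq_le_sq_mul_sq (E.erase 0) (fun e => 1 / wt C e)
          (fun e => wt C e * ‖f e θ‖)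
        have l1 : ∑ e ∈ E.erase 0, 1 / wt C e * (wt C e * ‖f e θ‖) = ∑ e ∈ E.erase 0, ‖f e θ‖ := by
          refine Finset.sum_congr rfl fun e he => ?_
          have : wt C e ≠ 0 := by
            rw [hwt e he]
            exact mul_ne_zero hC0.ne' (abs_ne_zero.2 (hne e he))
          field_simp
        have l2 : ∑ e ∈ E.erase 0, (wt C e * ‖f e θ‖) ^ 2 = G2 := by
          rw [hG2]
          exact Finset.sum_congr rfl fun e _ => by rw [mul_pow]
        have l3 : ∑ e ∈ E.erase 0, (1 / wt C e) ^ 2 ≤ (2 / C) ^ 2 := by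
          have : ∑ e ∈ E.erase 0, (1 / wt C e) ^ 2 = 1 / C ^ 2 * ∑ e ∈ E.erase 0, (1 : ℝ) / (e : ℝ) ^ 2 := by
            rw [Finset.mul_sum]
            refine Finset.sum_congr rfl fun e he => ?_
            rw [hwt e he, div_pow, mul_pow, sq_abs, one_pow, one_div_mul_one_div]
          rw [this]
          have h4 := sum_inv_sq_int D (E.erase 0) (fun e he => (Finset.mem_erase.1 he).1)
            (fun e he => hED e (Finset.mem_erase.1 he).2)
          calc 1 / C ^ 2 * ∑ e ∈ E.erase 0, (1 : ℝ) / (e : ℝ) ^ 2 ≤ 1 / C ^ 2 * 4 :=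
                mul_le_mul_of_nonneg_left h4 (by positivity)
            _ = (2 / C) ^ 2 := by rw [div_pow]; ring
        rw [l1, l2] at cs
        exact cs.trans (mul_le_mul_of_nonneg_right l3 hG20)
    have hfin : ∑ e ∈ E, wt C e ^ 2 * U e = ∑ v ∈ Γ, Wt C v ^ 2 * ‖a v‖ ^ 2 := by
      rw [← Finset.sum_fiberwise_of_maps_to hmaps]
      refine Finset.sum_congr rfl fun e _ => ?_
      rw [hU, Finset.mul_sum]
      refine Finset.sum_congr rfl fun v hv => ?_
      rw [Finset.mem_filter] at hv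
      rw [Wt_succ, hv.2]; ring
    have hU0 : ∀ e, 0 ≤ U e := fun e => Finset.sum_nonneg fun v _ => by positivity
    have hmk := mink E (fun e => wt C e ^ 2) U (fun e θ => ‖f e θ‖ ^ 2)
      ((Fintype.card Ω : ℝ) ^ n) m hm (fun e => by positivity) hU0 (fun e θ => by positivity)
      (fun e _ => hIH e)
    rw [sum_cons]
    calc ∑ θ : Fin n → Ω, ∑ k, (‖∑ v ∈ Γ, a v * chi z v (Fin.cons k θ)‖ ^ 2) ^ m
        = ∑ θ : Fin n → Ω, ∑ k, (‖∑ e ∈ E, z k ^ e * f e θ‖ ^ 2) ^ m :=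
          Finset.sum_congr rfl fun θ _ => Finset.sum_congr rfl fun k _ => by rw [hdec k θ]
      _ ≤ ∑ θ : Fin n → Ω, (Fintype.card Ω : ℝ) * (∑ e ∈ E, wt C e ^ 2 * ‖f e θ‖ ^ 2) ^ m :=
          Finset.sum_le_sum fun θ _ => hone θ
      _ = (Fintype.card Ω : ℝ) * ∑ θ : Fin n → Ω, (∑ e ∈ E, wt C e ^ 2 * ‖f e θ‖ ^ 2) ^ m := by
          rw [Finset.mul_sum]
      _ ≤ (Fintype.card Ω : ℝ) * ((Fintype.card Ω : ℝ) ^ n * (∑ e ∈ E, wt C e ^ 2 * U e) ^ m) :=
          mul_le_mul_of_nonneg_left hmk (by positivity)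
      _ = _ := by rw [hfin, pow_succ]; ring

end Pool.Agent.Y385.SPI
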